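import Pool.Agent.H.MP_6a1d6a_ag.DM.Base

/-!
MP_6a1d6a_ag/DM, module A1: elementary properties of `disc`.

`(fun s => h (x + s • v) v)` is continuous on the compact set `closedBall 0 r` if `InU U x v r` (`hh.cont` composed with
`s ↦ (x + s • v, v)`), so its image is compact: bounded above and the supremum is attained.
`disc_smul`: substitute `s' = c s` (for `c ≠ 0`; for `c = 0` both sides are `0`, note `h x 0 = 0` by `smul` with `c = 0`, and `0 ≤ r`).
`disc_cont`: `disc h (x z) (v z) (ρ z)` is the supremum over `s ∈ closedBall 0 1` of `h (x z + (ρ z * s) • v z) (v z)`; for `ρ z = 0` too.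
Restrict to the subtype `S` and use `IsCompact.continuous_sSup` with the compact space `closedBall (0 : ℂ) 1` as second factor.
-/

set_option autoImplicit false

open Set Filter Topology Metric

namespace Pool.Agent.Nef6.DM

variable {V : Type} [NormedAddCommGroup V] [NormedSpace ℂ V] {h : V → V → ℝ} {U : Set V}

theorem InU.mono {x v : V} {r r' : ℝ} (hi : InU U x v r) (hr : r' ≤ r) : InU U x v r' :=
  fun s hs => hi s (hs.trans hr)

theorem InU.smul {x v : V} {r : ℝ} {c : ℂ} (hi : InU U x v (‖c‖ * r)) : InU U x (c • v) r := by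
  intro s hs
  rw [smul_smul]
  refine hi _ ?_
  rw [norm_mul, mul_comm]
  exact mul_le_mul_of_nonneg_left hs (norm_nonneg _)

/-- conversely -/
theorem InU.of_smul {x v : V} {r : ℝ} {c : ℂ} (hc : c ≠ 0) (hi : InU U x (c • v) r) :
    InU U x v (‖c‖ * r) := by
  intro s hs
  have h1 : s • v = (s / c) • (c • v) := by rw [smul_smul, div_mul_cancel₀ s hc]
  rw [h1]
  refine hi _ ?_
  rw [norm_div, div_le_iff₀ (norm_pos_iff.2 hc), mul_comm]
  exact hs

private theorem A1_cpt (hh : IsSemi h U) {x v : V} {r : ℝ} (hi : InU U x v r) :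
    IsCompact ((fun s : ℂ => h (x + s • v) v) '' closedBall 0 r) := by
  have h1 : Continuous fun s : ℂ => ((x + s • v, v) : V × V) := by fun_prop
  refine (isCompact_closedBall 0 r).image_of_continuousOn ?_
  exact hh.cont.comp h1.continuousOn fun s hs =>
    ⟨hi s (mem_closedBall_zero_iff.1 hs), mem_univ _⟩

theorem disc_le (hh : IsSemi h U) {x v : V} {r : ℝ} (hi : InU U x v r) {s : ℂ} (hs : ‖s‖ ≤ r) :
    h (x + s • v) v ≤ disc h x v r := by
  exact le_csSup (A1_cpt hh hi).bddAbove ⟨s, mem_closedBall_zero_iff.2 hs, rfl⟩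

theorem disc_mem (hh : IsSemi h U) {x v : V} {r : ℝ} (hr : 0 ≤ r) (hi : InU U x v r) :
    ∃ s : ℂ, ‖s‖ ≤ r ∧ h (x + s • v) v = disc h x v r := by
  have h1 : ((fun s : ℂ => h (x + s • v) v) '' closedBall 0 r).Nonempty :=
    ⟨_, 0, mem_closedBall_zero_iff.2 (by rw [norm_zero]; exact hr), rfl⟩
  obtain ⟨s, hs, he⟩ := (A1_cpt hh hi).sSup_mem h1
  exact ⟨s, mem_closedBall_zero_iff.1 hs, he⟩

/-- to bound `disc` -/
theorem disc_le_of (hh : IsSemi h U) {x v : V} {r B : ℝ} (hr : 0 ≤ r) (hi : InU U x v r)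
    (hB : ∀ s : ℂ, ‖s‖ ≤ r → h (x + s • v) v ≤ B) : disc h x v r ≤ B := by
  obtain ⟨s, hs, he⟩ := disc_mem hh hr hi
  exact he ▸ hB s hs

theorem disc_nonneg (hh : IsSemi h U) {x v : V} {r : ℝ} (hr : 0 ≤ r) (hi : InU U x v r) :
    0 ≤ disc h x v r := by
  have h0 : ‖(0 : ℂ)‖ ≤ r := by
    rw [norm_zero]
    exact hr
  exact (hh.nonneg _ (hi 0 h0) v).trans (disc_le hh hi h0)

theorem disc_pos (hh : IsSemi h U) {x v : V} {r : ℝ} (hv : v ≠ 0) (hr : 0 < r) (hi : InU U x v r) :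
    0 < disc h x v r := by
  obtain ⟨s, hs, hp⟩ := hh.pos x v hv r hr hi
  exact hp.trans_le (disc_le hh hi hs)

theorem disc_mono (hh : IsSemi h U) {x v : V} {r r' : ℝ} (hr : 0 ≤ r) (hrr : r ≤ r')
    (hi : InU U x v r') : disc h x v r ≤ disc h x v r' := by
  exact disc_le_of hh hr (hi.mono hrr) fun s hs => disc_le hh hi (hs.trans hrr)

theorem disc_smul (hh : IsSemi h U) {x v : V} {r : ℝ} (hr : 0 ≤ r) {c : ℂ}
    (hi : InU U x v (‖c‖ * r)) : disc h x (c • v) r = ‖c‖ * disc h x v (‖c‖ * r) := by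
  refine le_antisymm (disc_le_of hh hr hi.smul fun s hs => ?_) ?_
  · rw [hh.smul _ (hi.smul s hs) c v, smul_smul]
    refine mul_le_mul_of_nonneg_left (disc_le hh hi ?_) (norm_nonneg _)
    rw [norm_mul, mul_comm]
    exact mul_le_mul_of_nonneg_left hs (norm_nonneg _)
  · by_cases hc : c = 0
    · rw [hc, norm_zero, zero_mul]
      rw [hc] at hi
      exact disc_nonneg hh hr hi.smul
    · obtain ⟨s, hs, he⟩ := disc_mem hh (mul_nonneg (norm_nonneg c) hr) hi
      have h1 : s • v = (s / c) • (c • v) := by rw [smul_smul, div_mul_cancel₀ s hc]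
      have h2 : ‖s / c‖ ≤ r := by
        rw [norm_div, div_le_iff₀ (norm_pos_iff.2 hc), mul_comm]
        exact hs
      rw [← he, h1, ← hh.smul _ (hi.smul _ h2) c v]
      exact disc_le hh hi.smul h2

theorem disc_cont (hh : IsSemi h U) {Z : Type} [TopologicalSpace Z] {S : Set Z} {x v : Z → V}
    {ρ : Z → ℝ} (hx : ContinuousOn x S) (hv : ContinuousOn v S) (hρ : ContinuousOn ρ S)
    (h0 : ∀ z ∈ S, 0 ≤ ρ z) (hi : ∀ z ∈ S, InU U (x z) (v z) (ρ z)) :
    ContinuousOn (fun z => disc h (x z) (v z) (ρ z)) S := by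
  have hK : IsCompact (univ : Set (closedBall (0 : ℂ) 1)) := by
    have : CompactSpace (closedBall (0 : ℂ) 1) :=
      isCompact_iff_compactSpace.1 (isCompact_closedBall _ _)
    exact isCompact_univ
  let f : S → closedBall (0 : ℂ) 1 → ℝ := fun z s => h (x z + ((ρ z : ℂ) * s) • v z) (v z)
  have hx' : Continuous fun q : S × closedBall (0 : ℂ) 1 => x q.1 :=
    (continuousOn_iff_continuous_domRestrict.1 hx).comp continuous_fst
  have hv' : Continuous fun q : S × closedBall (0 : ℂ) 1 => v q.1 :=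
    (continuousOn_iff_continuous_domRestrict.1 hv).comp continuous_fst
  have hρ' : Continuous fun q : S × closedBall (0 : ℂ) 1 => ((ρ q.1 : ℝ) : ℂ) :=
    Complex.continuous_ofReal.comp ((continuousOn_iff_continuous_domRestrict.1 hρ).comp continuous_fst)
  have hs' : Continuous fun q : S × closedBall (0 : ℂ) 1 => (q.2 : ℂ) :=
    continuous_subtype_val.comp continuous_snd
  have hmem : ∀ (z : S) (s : closedBall (0 : ℂ) 1), ‖(ρ z : ℂ) * s‖ ≤ ρ z := by
    intro z s
    have h1 : ‖(s : ℂ)‖ ≤ 1 := mem_closedBall_zero_iff.1 s.2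
    rw [norm_mul, Complex.norm_real, Real.norm_eq_abs, abs_of_nonneg (h0 z z.2)]
    exact mul_le_of_le_one_right (h0 z z.2) h1
  have hf : Continuous (Function.uncurry f) := by
    have h1 : Continuous fun q : S × closedBall (0 : ℂ) 1 =>
        ((x q.1 + ((ρ q.1 : ℂ) * q.2) • v q.1, v q.1) : V × V) :=
      (hx'.add ((hρ'.mul hs').smul hv')).prodMk hv'
    exact hh.cont.comp_continuous h1 fun q => ⟨hi q.1 q.1.2 _ (hmem q.1 q.2), mem_univ _⟩
  have h2 : Continuous fun z : S => sSup (f z '' univ) := hK.continuous_sSup hf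
  rw [continuousOn_iff_continuous_domRestrict]
  refine h2.congr fun z => ?_
  show sSup (f z '' univ) = sSup ((fun s : ℂ => h (x z + s • v z) (v z)) '' closedBall 0 (ρ z))
  congr 1
  ext y
  constructor
  · rintro ⟨s, -, rfl⟩
    exact ⟨(ρ z : ℂ) * s, mem_closedBall_zero_iff.2 (hmem z s), rfl⟩
  · rintro ⟨s, hs, rfl⟩
    have h3 : ‖s‖ ≤ ρ z := mem_closedBall_zero_iff.1 hs
    have h4 : ‖s / (ρ z : ℂ)‖ ≤ 1 := by
      rw [norm_div, Complex.norm_real, Real.norm_eq_abs, abs_of_nonneg (h0 z z.2)]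
      exact div_le_one_of_le₀ h3 (h0 z z.2)
    have h5 : (ρ z : ℂ) * (s / (ρ z : ℂ)) = s := by
      by_cases h6 : (ρ z : ℂ) = 0
      · have h7 : ρ z = 0 := by exact_mod_cast h6
        rw [h7] at h3
        rw [norm_le_zero_iff.1 h3, zero_div, mul_zero]
      · exact mul_div_cancel₀ s h6
    refine ⟨⟨s / (ρ z : ℂ), mem_closedBall_zero_iff.2 h4⟩, mem_univ _, ?_⟩
    show h (x z + ((ρ z : ℂ) * (s / (ρ z : ℂ))) • v z) (v z) = _
    rw [h5]

end Pool.Agent.Nef6.DM
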