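import Pool.Agent.H.MP_6a1d6a_ag.DM.A1

/-!
MP_6a1d6a_ag/DM, module A2: the radius `rad`.

By `disc_pos`, `disc_mono` the function `r ↦ r * disc h x v r` is strictly increasing on `(0, R]` (`r < r'`:
`r * disc r < r' * disc r ≤ r' * disc r'`), by `disc_cont` (with `Z = ℝ`, `S = Icc 0 R`, `ρ = id`) it is continuous on `[0, R]`,
it is `0` at `0` and `> T` at `R` (`Good.lt`). So by the intermediate value theorem there is a unique `r₁ ∈ (0, R)` with value `T`,
the set in the definition of `rad` is `[0, r₁]` and `rad = r₁`. Everything else follows.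
`rad_smul`: `r * disc (c v) r = r * ‖c‖ * disc v (‖c‖ r)`.
`rad_cont`: for `0 < r ≤ R`: `rad z < r ↔ T < r * disc z r` and `r < rad z ↔ r * disc z r < T`, and `z ↦ r * disc z r` is continuous.
-/

set_option autoImplicit false

open Set Filter Topology Metric

namespace Pool.Agent.Nef6.DM

variable {V : Type} [NormedAddCommGroup V] [NormedSpace ℂ V] {h : V → V → ℝ} {U : Set V}
  {T R : ℝ} {x v : V}

theorem mul_disc_lt (hh : IsSemi h U) (hv : v ≠ 0) {r r' : ℝ} (hr : 0 < r) (hrr : r < r')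
    (hi : InU U x v r') : r * disc h x v r < r' * disc h x v r' := by
  have h1 : 0 < disc h x v r := disc_pos hh hv hr (hi.mono hrr.le)
  have h2 : disc h x v r ≤ disc h x v r' := disc_mono hh hr.le hrr.le hi
  exact (mul_lt_mul_of_pos_right hrr h1).trans_le (mul_le_mul_of_nonneg_left h2 (hr.trans hrr).le)

theorem rad_eq (hh : IsSemi h U) (g : Good h U T x v R) :
    0 < rad h T x v R ∧ rad h T x v R < R ∧ rad h T x v R * disc h x v (rad h T x v R) = T := by
  have hc : ContinuousOn (fun r : ℝ => r * disc h x v r) (Icc 0 R) :=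
    continuousOn_id.mul (disc_cont hh (S := Icc 0 R) (x := fun _ => x) (v := fun _ => v)
      (ρ := fun r => r) continuousOn_const continuousOn_const continuousOn_id
      (fun z hz => hz.1) (fun z hz => g.inU.mono hz.2))
  have h0 : (fun r : ℝ => r * disc h x v r) 0 = 0 := zero_mul _
  obtain ⟨r₁, ⟨hr0, hrR⟩, hr₁⟩ := intermediate_value_Icc g.hR.le hc
    (show T ∈ Icc ((fun r : ℝ => r * disc h x v r) 0) ((fun r : ℝ => r * disc h x v r) R) from
      ⟨by rw [h0]; exact g.hT.le, g.lt.le⟩)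
  have he : r₁ * disc h x v r₁ = T := hr₁
  have hr0' : 0 < r₁ := by
    rcases hr0.lt_or_eq with h1 | h1
    · exact h1
    · rw [← h1, zero_mul] at he
      exact absurd he g.hT.ne
  have hrR' : r₁ < R := by
    rcases hrR.lt_or_eq with h1 | h1
    · exact h1
    · rw [h1] at he
      exact absurd he g.lt.ne'
  have hset : {r | 0 ≤ r ∧ r ≤ R ∧ r * disc h x v r ≤ T} = Icc 0 r₁ := by
    ext r
    constructor
    · rintro ⟨h1, h2, h3⟩
      refine ⟨h1, ?_⟩
      by_contra h4
      have h5 := mul_disc_lt hh g.hv hr0' (not_le.1 h4) (g.inU.mono h2)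
      rw [he] at h5
      exact absurd h3 (not_le.2 h5)
    · rintro ⟨h1, h2⟩
      refine ⟨h1, h2.trans hrR, ?_⟩
      rcases h1.lt_or_eq with h3 | h3
      · rcases h2.lt_or_eq with h4 | h4
        · have h5 := mul_disc_lt hh g.hv h3 h4 (g.inU.mono hrR)
          rw [he] at h5
          exact h5.le
        · rw [h4]
          exact he.le
      · rw [← h3, zero_mul]
        exact g.hT.le
  have hrad : rad h T x v R = r₁ := by
    rw [rad, hset, csSup_Icc hr0]
  rw [hrad]
  exact ⟨hr0', hrR', he⟩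

theorem rad_iff (hh : IsSemi h U) (g : Good h U T x v R) {r : ℝ} (hr : 0 < r) (hrR : r ≤ R) :
    r ≤ rad h T x v R ↔ r * disc h x v r ≤ T := by
  obtain ⟨h1, h2, h3⟩ := rad_eq hh g
  constructor
  · intro h4
    rcases h4.lt_or_eq with h5 | h5
    · have h6 := mul_disc_lt hh g.hv hr h5 (g.inU.mono h2.le)
      rw [h3] at h6
      exact h6.le
    · rw [h5]
      exact h3.le
  · intro h4
    by_contra h5
    have h6 := mul_disc_lt hh g.hv h1 (not_le.1 h5) (g.inU.mono hrR)
    rw [h3] at h6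
    exact absurd h4 (not_le.2 h6)

theorem rad_unique (hh : IsSemi h U) (g : Good h U T x v R) {r : ℝ} (hr : 0 < r) (hrR : r ≤ R)
    (he : r * disc h x v r = T) : r = rad h T x v R := by
  obtain ⟨h1, h2, h3⟩ := rad_eq hh g
  refine le_antisymm ((rad_iff hh g hr hrR).2 he.le) ?_
  by_contra h4
  have h5 := mul_disc_lt hh g.hv hr (not_le.1 h4) (g.inU.mono h2.le)
  rw [h3, he] at h5
  exact lt_irrefl _ h5

/-- independence of `R` -/
theorem rad_indep (hh : IsSemi h U) {R' : ℝ} (g : Good h U T x v R) (g' : Good h U T x v R') :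
    rad h T x v R = rad h T x v R' := by
  obtain ⟨h1, h2, h3⟩ := rad_eq hh g
  refine rad_unique hh g' h1 ?_ h3
  by_contra h4
  have h5 := mul_disc_lt hh g.hv g'.hR (not_le.1 h4) (g.inU.mono h2.le)
  rw [h3] at h5
  exact lt_asymm h5 g'.lt

theorem Good.smul (hh : IsSemi h U) (g : Good h U T x v R) {c : ℂ} (hc : c ≠ 0) :
    Good h U T x (c • v) (R / ‖c‖) := by
  have hc' : 0 < ‖c‖ := norm_pos_iff.2 hc
  have h1 : ‖c‖ * (R / ‖c‖) = R := mul_div_cancel₀ _ hc'.ne'
  have h2 : InU U x v (‖c‖ * (R / ‖c‖)) := by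
    rw [h1]
    exact g.inU
  refine ⟨g.hT, div_pos g.hR hc', smul_ne_zero hc g.hv, h2.smul, ?_⟩
  rw [disc_smul hh (div_pos g.hR hc').le h2, h1, ← mul_assoc, div_mul_cancel₀ _ hc'.ne']
  exact g.lt

theorem rad_smul (hh : IsSemi h U) (g : Good h U T x v R) {c : ℂ} (hc : c ≠ 0) :
    rad h T x (c • v) (R / ‖c‖) = rad h T x v R / ‖c‖ := by
  have hc' : 0 < ‖c‖ := norm_pos_iff.2 hc
  obtain ⟨h1, h2, h3⟩ := rad_eq hh g
  have h4 : ‖c‖ * (rad h T x v R / ‖c‖) = rad h T x v R := mul_div_cancel₀ _ hc'.ne'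
  have h5 : InU U x v (‖c‖ * (rad h T x v R / ‖c‖)) := by
    rw [h4]
    exact g.inU.mono h2.le
  refine (rad_unique hh (g.smul hh hc) (div_pos h1 hc') (div_le_div_of_nonneg_right h2.le hc'.le)
    ?_).symm
  rw [disc_smul hh (div_pos h1 hc').le h5, h4, ← mul_assoc, div_mul_cancel₀ _ hc'.ne']
  exact h3

theorem rad_cont (hh : IsSemi h U) {Z : Type} [TopologicalSpace Z] {S : Set Z} {x v : Z → V}
    (hx : ContinuousOn x S) (hv : ContinuousOn v S) (g : ∀ z ∈ S, Good h U T (x z) (v z) R) :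
    ContinuousOn (fun z => rad h T (x z) (v z) R) S := by
  have hc : ∀ r : ℝ, 0 ≤ r → r ≤ R →
      ContinuousOn (fun z => r * disc h (x z) (v z) r) S := fun r h0 h1 =>
    continuousOn_const.mul (disc_cont hh hx hv (ρ := fun _ => r) continuousOn_const
      (fun _ _ => h0) (fun z hz => (g z hz).inU.mono h1))
  intro z₀ hz₀
  obtain ⟨h1, h2, h3⟩ := rad_eq hh (g z₀ hz₀)
  refine tendsto_order.2 ⟨fun a ha => ?_, fun b hb => ?_⟩
  · obtain ⟨r, hr1, hr2⟩ := exists_between (max_lt ha h1)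
    have hr0 : 0 < r := (le_max_right _ _).trans_lt hr1
    have hrR : r ≤ R := (hr2.trans h2).le
    have h4 : r * disc h (x z₀) (v z₀) r < T := by
      have h5 := mul_disc_lt hh (g z₀ hz₀).hv hr0 hr2 ((g z₀ hz₀).inU.mono h2.le)
      rwa [h3] at h5
    have h5 : ∀ᶠ z in 𝓝[S] z₀, r * disc h (x z) (v z) r < T :=
      (hc r hr0.le hrR z₀ hz₀).eventually (gt_mem_nhds h4)
    filter_upwards [h5, self_mem_nhdsWithin] with z hz1 hz2
    exact ((le_max_left _ _).trans_lt hr1).trans_le ((rad_iff hh (g z hz2) hr0 hrR).2 hz1.le)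
  · obtain ⟨r, hr1, hr2⟩ := exists_between (lt_min hb h2)
    have hr0 : 0 < r := h1.trans hr1
    have hrR : r ≤ R := (hr2.trans_le (min_le_right _ _)).le
    have h4 : T < r * disc h (x z₀) (v z₀) r := by
      have h5 := mul_disc_lt hh (g z₀ hz₀).hv h1 hr1 ((g z₀ hz₀).inU.mono hrR)
      rwa [h3] at h5
    have h5 : ∀ᶠ z in 𝓝[S] z₀, T < r * disc h (x z) (v z) r :=
      (hc r hr0.le hrR z₀ hz₀).eventually (lt_mem_nhds h4)
    filter_upwards [h5, self_mem_nhdsWithin] with z hz1 hz2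
    have h6 : rad h T (x z) (v z) R < r := by
      by_contra h7
      exact absurd ((rad_iff hh (g z hz2) hr0 hrR).1 (not_lt.1 h7)) (not_le.2 hz1)
    exact h6.trans (hr2.trans_le (min_le_left _ _))

end Pool.Agent.Nef6.DM
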