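import Mathlib

/-!
MP_6a1d6a_ag/DM, module A3: a continuous real function on a circle is uniformly approximated from above by real parts of
polynomials.

Approximate `g + η / 2` on the circle within `η / 2` by `Re P`, `P` a polynomial in `(z - b) / r`. Either by
`span_fourier_closure_eq_top` (Fourier series on `AddCircle`, density of trigonometric polynomials): the real part of
`∑ a_k e^{ikθ}` (`|k| ≤ n`) is the real part of `∑_{k ≥ 0} (a_k + conj a_{-k}) e^{ikθ}` (with `a_0` alone for `k = 0`), or by the Stone-Weierstrass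
theorem for the star subalgebra of `C(sphere b r, ℂ)` generated by the coordinate (`conj w = 1 / w` on the unit circle, so each of its elements is a sum of
`w ^ k` and `conj w ^ k`, and `Re (a conj w ^ k) = Re (conj a w ^ k)`).
-/

set_option autoImplicit false

open Set Filter Topology Metric

namespace Pool.Agent.Nef6.DM

/-- A trigonometric polynomial is the sum of a polynomial and a conjugate of a polynomial. -/
private theorem A3_span (f : C(AddCircle (1 : ℝ), ℂ))
    (hf : f ∈ Submodule.span ℂ (range (@fourier (1 : ℝ)))) :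
    ∃ A B : ℂ → ℂ, Differentiable ℂ A ∧ Differentiable ℂ B ∧ ∀ x : AddCircle (1 : ℝ),
      f x = A (AddCircle.toCircle x : ℂ) + (starRingEnd ℂ) (B (AddCircle.toCircle x : ℂ)) := by
  induction hf using Submodule.span_induction with
  | mem f hf =>
    obtain ⟨n, rfl⟩ := hf
    have h1 : ∀ (k : ℕ) (x : AddCircle (1 : ℝ)),
        (fourier (k : ℤ) x : ℂ) = (AddCircle.toCircle x : ℂ) ^ k := by
      intro k x
      rw [fourier_apply, AddCircle.toCircle_zsmul, zpow_natCast, Circle.coe_pow]
    rcases Int.eq_nat_or_neg n with ⟨k, rfl | rfl⟩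
    · exact ⟨fun w => w ^ k, fun _ => 0, differentiable_id.pow k, differentiable_const _,
        fun x => by rw [h1, map_zero, add_zero]⟩
    · exact ⟨fun _ => 0, fun w => w ^ k, differentiable_const _, differentiable_id.pow k,
        fun x => by rw [fourier_neg, h1, zero_add]⟩
  | zero =>
    exact ⟨fun _ => 0, fun _ => 0, differentiable_const _, differentiable_const _,
      fun x => by rw [map_zero, add_zero]; rfl⟩
  | add f g _ _ hf hg =>
    obtain ⟨A, B, hA, hB, h⟩ := hf
    obtain ⟨A', B', hA', hB', h'⟩ := hg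
    refine ⟨fun w => A w + A' w, fun w => B w + B' w, hA.add hA', hB.add hB', fun x => ?_⟩
    rw [ContinuousMap.add_apply, h, h', map_add]
    ring
  | smul c f _ hf =>
    obtain ⟨A, B, hA, hB, h⟩ := hf
    refine ⟨fun w => c * A w, fun w => (starRingEnd ℂ) c * B w, hA.const_mul c,
      hB.const_mul _, fun x => ?_⟩
    rw [ContinuousMap.smul_apply, h, map_mul, Complex.conj_conj, smul_eq_mul]
    ring

theorem approx_re {g : ℂ → ℝ} {b : ℂ} {r : ℝ} (hr : 0 < r) (hg : ContinuousOn g (sphere b r)) {η : ℝ}
    (hη : 0 < η) :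
    ∃ P : ℂ → ℂ, Differentiable ℂ P ∧ ∀ z ∈ sphere b r, g z ≤ (P z).re ∧ (P z).re ≤ g z + η := by
  have hs : ∀ x : AddCircle (1 : ℝ), b + r * (AddCircle.toCircle x : ℂ) ∈ sphere b r := by
    intro x
    rw [mem_sphere, dist_eq_norm, add_sub_cancel_left, norm_mul, Circle.norm_coe, mul_one,
      Complex.norm_real, Real.norm_eq_abs, abs_of_pos hr]
  have hc : Continuous fun x : AddCircle (1 : ℝ) =>
      ((g (b + r * (AddCircle.toCircle x : ℂ)) + η / 2 : ℝ) : ℂ) := by
    refine Complex.continuous_ofReal.comp (Continuous.add ?_ continuous_const)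
    refine hg.comp_continuous ?_ hs
    exact continuous_const.add (continuous_const.mul
      (continuous_subtype_val.comp AddCircle.continuous_toCircle))
  let G : C(AddCircle (1 : ℝ), ℂ) := ⟨_, hc⟩
  have h1 : G ∈ (Submodule.span ℂ (range (@fourier (1 : ℝ)))).topologicalClosure := by
    rw [span_fourier_closure_eq_top]
    exact Submodule.mem_top
  have h2 : G ∈ closure (Submodule.span ℂ (range (@fourier (1 : ℝ))) :
      Set C(AddCircle (1 : ℝ), ℂ)) := h1
  obtain ⟨f, hf, hfG⟩ := Metric.mem_closure_iff.1 h2 (η / 2) (by linarith)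
  obtain ⟨A, B, hA, hB, hAB⟩ := A3_span f hf
  refine ⟨fun z => A ((z - b) / r) + B ((z - b) / r), ?_, fun z hz => ?_⟩
  · have h3 : Differentiable ℂ fun z : ℂ => (z - b) / r :=
      (differentiable_id.sub (differentiable_const b)).div_const _
    exact (hA.comp h3).add (hB.comp h3)
  · have hr' : (r : ℂ) ≠ 0 := by exact_mod_cast hr.ne'
    have hw : ‖(z - b) / r‖ = 1 := by
      rw [mem_sphere, dist_eq_norm] at hz
      rw [norm_div, hz, Complex.norm_real, Real.norm_eq_abs, abs_of_pos hr, div_self hr.ne']
    let c : Circle := ⟨(z - b) / r, mem_sphere_zero_iff_norm.2 hw⟩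
    obtain ⟨x, hx⟩ := (AddCircle.homeomorphCircle (one_ne_zero : (1 : ℝ) ≠ 0)).surjective c
    rw [AddCircle.homeomorphCircle_apply] at hx
    have hxz : (AddCircle.toCircle x : ℂ) = (z - b) / r := congrArg Subtype.val hx
    have hz' : b + r * (AddCircle.toCircle x : ℂ) = z := by
      rw [hxz]
      field_simp
      ring
    have h3 : ‖G x - f x‖ < η / 2 := by
      have h4 := ContinuousMap.dist_apply_le_dist (f := G) (g := f) x
      rw [dist_eq_norm] at h4
      exact lt_of_le_of_lt h4 hfG
    have h4 : |(G x - f x).re| < η / 2 := lt_of_le_of_lt (Complex.abs_re_le_norm _) h3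
    have h5 : (G x).re = g z + η / 2 := by
      show (((g (b + r * (AddCircle.toCircle x : ℂ)) + η / 2 : ℝ) : ℂ)).re = _
      rw [Complex.ofReal_re, hz']
    have h6 : (f x).re = (A ((z - b) / r) + B ((z - b) / r)).re := by
      rw [hAB x, hxz, Complex.add_re, Complex.add_re, Complex.conj_re]
    rw [Complex.sub_re, h5, h6, abs_lt] at h4
    constructor
    · linarith [h4.2]
    · linarith [h4.1]

end Pool.Agent.Nef6.DM
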