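import Pool.Agent.H.MP_6a1d6a_ag.DM.A2
import Pool.Agent.H.MP_6a1d6a_ag.DM.A3

/-!
MP_6a1d6a_ag/DM, module A4: `- log rad` satisfies the sub-mean value inequality.

Let `g z = - log (rad h T (x z) (v z) R)`, continuous on the closed ball (`rad_cont`, `rad > 0`). It is enough to show `g b ≤ (P b).re` for every entire `P`
with `g ≤ Re P` on the sphere (step 1): by `approx_re`, for `η > 0` there is such a `P` with `Re P ≤ g + η` on the sphere, and
`(P b).re = circleAverage (Re P) b r ≤ circleAverage g b r + η` (mean value property of holomorphic functions; `circleAverage_mono`).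
Step 1. Put `q z = exp (- P z)`. On the sphere `‖q z‖ = exp (- Re P z) ≤ exp (- g z) = rad z < R`, so `‖q z‖ ≤ max_{sphere} < R` on the closed ball by the maximum
principle (`Complex.norm_le_of_forall_mem_frontier_norm_le`; the continuous function `rad` has a maximum `< R` on the sphere).
Fix `s : ℂ` with `‖s‖ ≤ 1`. The functions `X z = x z + (s * q z) • v z` and `W z = q z • v z` are analytic near the closed ball, `X z ∈ U` (`Good.inU`), `W z ≠ 0`.
On the sphere `h (X z) (W z) = ‖q z‖ * h (x z + (s q z) • v z) (v z) ≤ ‖q z‖ * disc h (x z) (v z) ‖q z‖ ≤ T` (`IsSemi.smul`, `disc_le`, and `rad_iff` since `‖q z‖ ≤ rad z`).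
So with `δ = T` in `IsSemi.psh`: `log (max T (h (X b) (W b))) ≤ circleAverage (log T) = log T`, that is `h (X b) (W b) ≤ T`, i.e.
`‖q b‖ * h (x b + (s q b) • v b) (v b) ≤ T`. Every `s'` with `‖s'‖ ≤ ‖q b‖` is `s * q b` with `‖s‖ ≤ 1`, so `‖q b‖ * disc h (x b) (v b) ‖q b‖ ≤ T` (`disc_le_of` or `disc_mem`),
and `‖q b‖ ≤ rad b` by `rad_iff`, that is `g b ≤ (P b).re`.
-/

set_option autoImplicit false

open Set Filter Topology Metric

namespace Pool.Agent.Nef6.DM

variable {V : Type} [NormedAddCommGroup V] [NormedSpace ℂ V] {h : V → V → ℝ} {U : Set V}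

/-- the bound for `q` -/
private theorem A4_max {q : ℂ → ℂ} (hq : Differentiable ℂ q) {b : ℂ} {r R : ℝ} (hr : 0 < r)
    (hle : ∀ z ∈ sphere b r, ‖q z‖ < R) : ∀ z ∈ closedBall b r, ‖q z‖ ≤ R := by
  intro z hz
  refine Complex.norm_le_of_forall_mem_frontier_norm_le (U := ball b r) isBounded_ball
    hq.diffContOnCl (fun w hw => ?_) ?_
  · rw [frontier_ball b hr.ne'] at hw
    exact (hle w hw).le
  · rwa [closure_ball b hr.ne']

/-- step 1 -/
theorem rad_le_re (hh : IsSemi h U) {T R : ℝ} {x v : ℂ → V} {b : ℂ} {r : ℝ} (hr : 0 < r)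
    (hx : AnalyticOnNhd ℂ x (closedBall b r)) (hv : AnalyticOnNhd ℂ v (closedBall b r))
    (g : ∀ z ∈ closedBall b r, Good h U T (x z) (v z) R) {P : ℂ → ℂ} (hP : Differentiable ℂ P)
    (hle : ∀ z ∈ sphere b r, - Real.log (rad h T (x z) (v z) R) ≤ (P z).re) :
    - Real.log (rad h T (x b) (v b) R) ≤ (P b).re := by
  obtain ⟨q, hq⟩ : ∃ q : ℂ → ℂ, q = fun z => Complex.exp (- P z) := ⟨_, rfl⟩
  have hqd : Differentiable ℂ q := by
    rw [hq]
    exact hP.neg.cexp
  have hqn : ∀ z, ‖q z‖ = Real.exp (- (P z).re) := by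
    intro z
    rw [hq, Complex.norm_exp, Complex.neg_re]
  have hq0 : ∀ z, 0 < ‖q z‖ := fun z => by
    rw [hqn]
    exact Real.exp_pos _
  have hb : b ∈ closedBall b r := mem_closedBall_self hr.le
  have hsr : ∀ z ∈ sphere b r, ‖q z‖ ≤ rad h T (x z) (v z) R := by
    intro z hz
    have h1 := (rad_eq hh (g z (sphere_subset_closedBall hz))).1
    have h2 := hle z hz
    rw [hqn, ← Real.le_log_iff_exp_le h1]
    linarith
  have hqR : ∀ z ∈ closedBall b r, ‖q z‖ ≤ R := by
    refine A4_max hqd hr fun z hz => ?_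
    exact (hsr z hz).trans_lt (rad_eq hh (g z (sphere_subset_closedBall hz))).2.1
  have hqa : AnalyticOnNhd ℂ q (closedBall b r) := fun z _ => hqd.analyticAt z
  have hT := (g b hb).hT
  have key : ∀ s : ℂ, ‖s‖ ≤ 1 → ‖q b‖ * h (x b + (s * q b) • v b) (v b) ≤ T := by
    intro s hs
    have hsq : ∀ z, ‖s * q z‖ ≤ ‖q z‖ := by
      intro z
      rw [norm_mul]
      exact mul_le_of_le_one_left (norm_nonneg _) hs
    have hU : ∀ z ∈ closedBall b r, x z + (s * q z) • v z ∈ U := fun z hz =>
      (g z hz).inU _ ((hsq z).trans (hqR z hz))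
    have h1 := hh.psh (fun z => x z + (s * q z) • v z) (fun z => q z • v z) b r hr
      (hx.add ((analyticOnNhd_const.mul hqa).smul hv)) (hqa.smul hv)
      (fun z hz => ⟨hU z hz, smul_ne_zero (norm_pos_iff.1 (hq0 z)) (g z hz).hv⟩) T hT
    have h2 : Real.circleAverage (fun z => Real.log (max T
        (h (x z + (s * q z) • v z) (q z • v z)))) b r = Real.log T := by
      refine Real.circleAverage_const_on_circle fun z hz => ?_
      rw [abs_of_pos hr] at hz
      have hz' := sphere_subset_closedBall hz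
      have h3 : h (x z + (s * q z) • v z) (q z • v z) ≤ T := by
        rw [hh.smul _ (hU z hz')]
        have h4 : InU U (x z) (v z) ‖q z‖ := fun s hs => (g z hz').inU s (hs.trans (hqR z hz'))
        exact (mul_le_mul_of_nonneg_left (disc_le hh h4 (hsq z)) (norm_nonneg _)).trans
          ((rad_iff hh (g z hz') (hq0 z) (hqR z hz')).1 (hsr z hz))
      rw [max_eq_left h3]
    rw [h2] at h1
    have h5 : max T (h (x b + (s * q b) • v b) (q b • v b)) ≤ T :=
      (Real.log_le_log_iff (lt_max_of_lt_left hT) hT).1 h1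
    have h6 := (le_max_right _ _).trans h5
    rwa [hh.smul _ (hU b hb)] at h6
  have h7 : InU U (x b) (v b) ‖q b‖ := fun s hs => (g b hb).inU s (hs.trans (hqR b hb))
  have h8 : ‖q b‖ * disc h (x b) (v b) ‖q b‖ ≤ T := by
    obtain ⟨s, hs, he⟩ := disc_mem hh (norm_nonneg _) h7
    have h9 : q b ≠ 0 := norm_pos_iff.1 (hq0 b)
    have h10 := key (s / q b) (by
      rw [norm_div, div_le_one (hq0 b)]
      exact hs)
    rw [div_mul_cancel₀ s h9] at h10
    rwa [← he]
  have h11 := (rad_iff hh (g b hb) (hq0 b) (hqR b hb)).2 h8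
  rw [hqn, ← Real.le_log_iff_exp_le (rad_eq hh (g b hb)).1] at h11
  linarith

theorem rad_sub (hh : IsSemi h U) {T R : ℝ} {x v : ℂ → V} {b : ℂ} {r : ℝ} (hr : 0 < r)
    (hx : AnalyticOnNhd ℂ x (closedBall b r)) (hv : AnalyticOnNhd ℂ v (closedBall b r))
    (g : ∀ z ∈ closedBall b r, Good h U T (x z) (v z) R) :
    - Real.log (rad h T (x b) (v b) R) ≤
      Real.circleAverage (fun z => - Real.log (rad h T (x z) (v z) R)) b r := by
  have hc : ContinuousOn (fun z => - Real.log (rad h T (x z) (v z) R)) (closedBall b r) :=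
    ((rad_cont hh hx.continuousOn hv.continuousOn g).log
      fun z hz => (rad_eq hh (g z hz)).1.ne').neg
  have hcs := hc.mono sphere_subset_closedBall
  have hi : CircleIntegrable (fun z => - Real.log (rad h T (x z) (v z) R)) b r :=
    hcs.circleIntegrable hr.le
  refine le_of_forall_pos_le_add fun η hη => ?_
  obtain ⟨P, hP, hle⟩ := approx_re hr hcs hη
  refine (rad_le_re hh hr hx hv g hP fun z hz => (hle z hz).1).trans ?_
  have h1 : (P b).re = Real.circleAverage (fun z => (P z).re) b r := by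
    have h2 : Real.circleAverage P b r = P b := hP.diffContOnCl.circleAverage
    have h3 := Complex.reCLM.circleAverage_comp_comm (f := P) (c := b) (R := r)
      (hP.continuous.continuousOn.circleIntegrable hr.le)
    rw [h2] at h3
    exact h3.symm
  have h4 : Real.circleAverage (fun z => - Real.log (rad h T (x z) (v z) R) + η) b r =
      Real.circleAverage (fun z => - Real.log (rad h T (x z) (v z) R)) b r + η := by
    have h5 := Real.circleAverage_fun_add hi (circleIntegrable_const η b r)
    rw [h5, Real.circleAverage_const]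
  rw [h1, ← h4]
  refine Real.circleAverage_mono ?_ ?_ fun z hz => ?_
  · exact (Complex.continuous_re.comp hP.continuous).continuousOn.circleIntegrable hr.le
  · exact hi.add (circleIntegrable_const η b r)
  · rw [abs_of_pos hr] at hz
    exact (hle z hz).2

end Pool.Agent.Nef6.DM
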