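import Pool.Agent.H.MP_6a1d6a_ag.SM.A5

/-!
MP_6a1d6a_ag/DM, module A5: the sum of the orders is nonpositive, approximate form.

Copy the proof of `sum_le` in `SM/A5.lean` (with `A5_pair`, `A5_local`, whose hypothesis `hloc` is only used at the one point `c`: restate them with
`hloc` for this `c` only). Choose the finite set `t` and the partition of unity `ψ` as there (they do not depend on `ε`). For `ε > 0` take
the functions `u i` from `h t ε`. `A i j` is defined with `u i`, `B i j` with `u j`; `B' i j` with `u i` (in the chart at `j`). `transfer` gives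
`∫ A i j = ∫ B' i j` (for the function `u i * ψ j`; integrability of `A i j` from `hloc i`, that of `B' i j` from the one of `B i j` and the bound below, or directly
from the transfer), and `|B' i j z - B i j z| ≤ ε * |indicator (ψ j * lap ψ i) z|` for all `z` except two, so `∑_{i,j} ∫ A i j ≤ ∑_{i,j} ∫ B i j + ε K = ε K`
with a constant `K` which does not depend on `ε`. Hence `(∑ m i) * kap ≤ ε K` for all `ε > 0`.
(If it is easier: apply the transfer to the function `(u i - u j) * ψ j`, restricted to the overlap.)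
-/

set_option autoImplicit false

open Set Filter Topology Metric MeasureTheory
open scoped ContDiff Manifold
open Pool.Agent.Nef6.SM

namespace Pool.Agent.Nef6.DM

section
variable {C : Type} [TopologicalSpace C] [ChartedSpace ℂ C] [IsManifold 𝓘(ℂ) ω C] [CompactSpace C]
  [T2Space C]

omit [CompactSpace C] [T2Space C] in
private theorem A5_pair1 {u : C → ℝ} {c : C} {k : ℤ} {R : C → ℝ}
    (hsub : ∀ c, ball (chartAt ℂ c c) (R c) ⊆ (chartAt ℂ c).target)
    (hloc : A5Loc (fun z => u ((chartAt ℂ c).symm z)) (chartAt ℂ c c) (R c) k)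
    {f g : C → ℝ} (hf : ContMDiff 𝓘(ℝ, ℂ) 𝓘(ℝ, ℝ) ∞ f) (hg : ContMDiff 𝓘(ℝ, ℂ) 𝓘(ℝ, ℝ) ∞ g)
    (c' : C) {K : Set ℂ} (hK : IsCompact K) (hKB : K ⊆ ball (chartAt ℂ c c) (R c))
    (h0 : ∀ z ∈ (chartAt ℂ c).target, z ∉ K →
      g ((chartAt ℂ c).symm z) * lap (fun z => f ((chartAt ℂ c).symm z)) z = 0)
    (h1 : ∀ z ∈ (chartAt ℂ c).target, (chartAt ℂ c).symm z ∉ (chartAt ℂ c').source →
      g ((chartAt ℂ c).symm z) * lap (fun z => f ((chartAt ℂ c).symm z)) z = 0) :
    Integrable (fun z => u ((chartAt ℂ c).symm z) *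
        (ball (chartAt ℂ c c) (R c)).indicator (fun z =>
          g ((chartAt ℂ c).symm z) * lap (fun z => f ((chartAt ℂ c).symm z)) z) z) ∧
    Integrable (fun z =>
        (ball (chartAt ℂ c c) (R c)).indicator (fun z =>
          g ((chartAt ℂ c).symm z) * lap (fun z => f ((chartAt ℂ c).symm z)) z) z) ∧
    IntegrableOn (fun z => (fun x => u x * g x) ((chartAt ℂ c).symm z) *
          lap (fun z => f ((chartAt ℂ c).symm z)) z)
      ((chartAt ℂ c).target ∩ (chartAt ℂ c).symm ⁻¹' (chartAt ℂ c').source) ∧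
    ∫ z in (chartAt ℂ c).target ∩ (chartAt ℂ c).symm ⁻¹' (chartAt ℂ c').source,
        (fun x => u x * g x) ((chartAt ℂ c).symm z) *
          lap (fun z => f ((chartAt ℂ c).symm z)) z =
      ∫ z, u ((chartAt ℂ c).symm z) *
        (ball (chartAt ℂ c c) (R c)).indicator (fun z =>
          g ((chartAt ℂ c).symm z) * lap (fun z => f ((chartAt ℂ c).symm z)) z) z := by
  have hcontg : ContinuousOn (fun z => g ((chartAt ℂ c).symm z)) (chartAt ℂ c).target :=
    (smooth_chart hg c).continuousOn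
  have hcontl : ContinuousOn (lap (fun z => f ((chartAt ℂ c).symm z))) (chartAt ℂ c).target :=
    lap_cont (chartAt ℂ c).open_target (smooth_chart hf c)
  have hcont : ContinuousOn (fun z => g ((chartAt ℂ c).symm z) *
      lap (fun z => f ((chartAt ℂ c).symm z)) z) (ball (chartAt ℂ c c) (R c)) :=
    (hcontg.mul hcontl).mono (hsub c)
  have h0' : ∀ z ∈ ball (chartAt ℂ c c) (R c), z ∉ K →
      (fun z => g ((chartAt ℂ c).symm z) * lap (fun z => f ((chartAt ℂ c).symm z)) z) z = 0 :=
    fun z hz hzK => h0 z (hsub c hz) hzK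
  have hts := S_ind_tsupport hK.isClosed h0'
  have hO : MeasurableSet ((chartAt ℂ c).target ∩
      (chartAt ℂ c).symm ⁻¹' (chartAt ℂ c').source) :=
    ((chartAt ℂ c).symm.isOpen_inter_preimage (chartAt ℂ c').open_source).measurableSet
  have hI1 : Integrable (fun z => u ((chartAt ℂ c).symm z) *
        (ball (chartAt ℂ c c) (R c)).indicator (fun z =>
          g ((chartAt ℂ c).symm z) * lap (fun z => f ((chartAt ℂ c).symm z)) z) z) :=
    A5_int hloc (S_ind_cont isOpen_ball hK.isClosed hKB hcont h0')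
      (hK.of_isClosed_subset (isClosed_tsupport _) hts) (hts.trans hKB)
  have hI2 : Integrable (fun z =>
        (ball (chartAt ℂ c c) (R c)).indicator (fun z =>
          g ((chartAt ℂ c).symm z) * lap (fun z => f ((chartAt ℂ c).symm z)) z) z) :=
    (S_ind_cont isOpen_ball hK.isClosed hKB hcont h0').integrable_of_hasCompactSupport
      (hK.of_isClosed_subset (isClosed_tsupport _) hts)
  have hE : ((chartAt ℂ c).target ∩
      (chartAt ℂ c).symm ⁻¹' (chartAt ℂ c').source).indicator
        (fun z => (fun x => u x * g x) ((chartAt ℂ c).symm z) *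
          lap (fun z => f ((chartAt ℂ c).symm z)) z) =
      fun z => u ((chartAt ℂ c).symm z) *
        (ball (chartAt ℂ c c) (R c)).indicator (fun z =>
          g ((chartAt ℂ c).symm z) * lap (fun z => f ((chartAt ℂ c).symm z)) z) z := by
    funext z
    by_cases hzB : z ∈ ball (chartAt ℂ c c) (R c)
    · rw [Set.indicator_of_mem hzB]
      by_cases hzs : (chartAt ℂ c).symm z ∈ (chartAt ℂ c').source
      · rw [Set.indicator_of_mem (show z ∈ (chartAt ℂ c).target ∩
          (chartAt ℂ c).symm ⁻¹' (chartAt ℂ c').source from ⟨hsub c hzB, hzs⟩)]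
        ring
      · rw [Set.indicator_of_notMem (fun h => hzs h.2), h1 z (hsub c hzB) hzs, mul_zero]
    · rw [Set.indicator_of_notMem hzB, mul_zero]
      by_cases hzO : z ∈ (chartAt ℂ c).target ∩ (chartAt ℂ c).symm ⁻¹' (chartAt ℂ c').source
      · rw [Set.indicator_of_mem hzO, mul_assoc, h0 z hzO.1 (fun h => hzB (hKB h)), mul_zero]
      · rw [Set.indicator_of_notMem hzO]
  refine ⟨hI1, hI2, ?_, ?_⟩
  · rw [← integrable_indicator_iff hO, hE]
    exact hI1
  · rw [← integral_indicator hO, hE]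

omit [T2Space C] in
private theorem A5_local1 {u : C → ℝ} {c : C} {k : ℤ} {R : C → ℝ} (hR : ∀ c, 0 < R c)
    (hsub : ∀ c, ball (chartAt ℂ c c) (R c) ⊆ (chartAt ℂ c).target)
    (hloc : A5Loc (fun z => u ((chartAt ℂ c).symm z)) (chartAt ℂ c c) (R c) k)
    {f : C → ℝ} (hf : ContMDiff 𝓘(ℝ, ℂ) 𝓘(ℝ, ℝ) ∞ f) (hs : tsupport f ⊆ S_U C R c)
    (h0 : ∀ x, 0 ≤ f x) :
    k * kap * f c ≤ ∫ z, u ((chartAt ℂ c).symm z) *
      (ball (chartAt ℂ c c) (R c)).indicator (lap (fun z => f ((chartAt ℂ c).symm z))) z := by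
  obtain ⟨hK, hKB⟩ := S_image hs
  set K := (chartAt ℂ c) '' tsupport f with hKdef
  set B := ball (chartAt ℂ c c) (R c) with hB
  have h1 : ∀ z ∈ B, z ∉ K → (fun z => f ((chartAt ℂ c).symm z)) z = 0 := fun z hz hzK =>
    S_off0 (S_notin (hsub c hz) hzK)
  have hsm := S_ind_contDiff isOpen_ball hK.isClosed hKB ((smooth_chart hf c).mono (hsub c)) h1
  have hts := S_ind_tsupport hK.isClosed h1
  have h2 := A5_ineq hloc hsm (hK.of_isClosed_subset (isClosed_tsupport _) hts)
    (hts.trans hKB) (fun z => by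
      by_cases hz : z ∈ B
      · rw [Set.indicator_of_mem hz]; exact h0 _
      · rw [Set.indicator_of_notMem hz])
  have h3 : B.indicator (fun z => f ((chartAt ℂ c).symm z)) (chartAt ℂ c c) = f c := by
    rw [Set.indicator_of_mem (mem_ball_self (hR c)),
      (chartAt ℂ c).left_inv (mem_chart_source ℂ c)]
  rw [h3] at h2
  refine h2.trans (le_of_eq ?_)
  refine integral_congr_ae (Eventually.of_forall fun z => ?_)
  simp only
  congr 1
  by_cases hz : z ∈ B
  · rw [Set.indicator_of_mem hz]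
    exact lap_congr (S_ind_ev_mem isOpen_ball hz)
  · rw [Set.indicator_of_notMem hz]
    exact lap_off (fun h => hz (hKB (hts h)))

omit [CompactSpace C] [T2Space C] in
private theorem A5_transfer {f : C → ℝ} (hf : ContMDiff 𝓘(ℝ, ℂ) 𝓘(ℝ, ℝ) ∞ f) (g : C → ℝ)
    (c c' : C)
    (hi : IntegrableOn (fun z => g ((chartAt ℂ c).symm z) *
        lap (fun z => f ((chartAt ℂ c).symm z)) z)
      ((chartAt ℂ c).target ∩ (chartAt ℂ c).symm ⁻¹' (chartAt ℂ c').source)) :
    IntegrableOn (fun z => g ((chartAt ℂ c').symm z) *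
        lap (fun z => f ((chartAt ℂ c').symm z)) z)
      ((chartAt ℂ c').target ∩ (chartAt ℂ c').symm ⁻¹' (chartAt ℂ c).source) := by
  set O := (chartAt ℂ c).target ∩ (chartAt ℂ c).symm ⁻¹' (chartAt ℂ c').source with hO
  set O' := (chartAt ℂ c').target ∩ (chartAt ℂ c').symm ⁻¹' (chartAt ℂ c).source with hO'
  set τ : ℂ → ℂ := fun z => chartAt ℂ c' ((chartAt ℂ c).symm z) with hτ
  have himg : τ '' O = O' := by
    ext y
    constructor
    · rintro ⟨z, hz, rfl⟩
      refine ⟨(chartAt ℂ c').map_source hz.2, ?_⟩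
      simp only [hτ, mem_preimage]
      rw [(chartAt ℂ c').left_inv hz.2]
      exact (chartAt ℂ c).map_target hz.1
    · intro hy
      refine ⟨chartAt ℂ c ((chartAt ℂ c').symm y), ⟨(chartAt ℂ c).map_source hy.2, ?_⟩, ?_⟩
      · simp only [mem_preimage]
        rw [(chartAt ℂ c).left_inv hy.2]
        exact (chartAt ℂ c').map_target hy.1
      · simp only [hτ]
        rw [(chartAt ℂ c).left_inv hy.2, (chartAt ℂ c').right_inv hy.1]
  have hinj : InjOn τ O := by
    intro x hx y hy hxy
    simp only [hτ] at hxy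
    have h1 : (chartAt ℂ c).symm x = (chartAt ℂ c).symm y :=
      (chartAt ℂ c').injOn hx.2 hy.2 hxy
    have h2 := congrArg (chartAt ℂ c) h1
    rwa [(chartAt ℂ c).right_inv hx.1, (chartAt ℂ c).right_inv hy.1] at h2
  have hder : ∀ x ∈ O, HasFDerivWithinAt τ
      ((ContinuousLinearMap.toSpanSingleton ℂ (deriv τ x)).restrictScalars ℝ : ℂ →L[ℝ] ℂ) O x := by
    intro x hx
    have h1 : DifferentiableAt ℂ τ x :=
      (holo_trans c c').differentiableAt ((M1_open c c').mem_nhds hx)
    exact (h1.hasDerivAt.hasFDerivAt.restrictScalars ℝ).hasFDerivWithinAt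
  have key := integrableOn_image_iff_integrableOn_abs_det_fderiv_smul volume
    (M1_open c c').measurableSet hder hinj
    (fun z => g ((chartAt ℂ c').symm z) * lap (fun z => f ((chartAt ℂ c').symm z)) z)
  rw [← hO, himg] at key
  rw [key]
  refine hi.congr_fun ?_ (M1_open c c').measurableSet
  intro z hz
  simp only
  rw [M1_det, abs_of_nonneg (by positivity), smul_eq_mul, lap_trans hf c c' hz,
    (chartAt ℂ c').left_inv hz.2]
  ring

omit [T2Space C] in
private theorem A5_comp {u v : C → ℝ} {k l : ℤ} {R : C → ℝ}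
    (hsub : ∀ c, ball (chartAt ℂ c c) (R c) ⊆ (chartAt ℂ c).target)
    {f g : C → ℝ} (hf : ContMDiff 𝓘(ℝ, ℂ) 𝓘(ℝ, ℝ) ∞ f) (hg : ContMDiff 𝓘(ℝ, ℂ) 𝓘(ℝ, ℝ) ∞ g)
    {i j : C} (hfs : tsupport f ⊆ S_U C R i) (hgs : tsupport g ⊆ S_U C R j)
    (hu : A5Loc (fun z => u ((chartAt ℂ i).symm z)) (chartAt ℂ i i) (R i) k)
    (hv : A5Loc (fun z => v ((chartAt ℂ j).symm z)) (chartAt ℂ j j) (R j) l)
    {ε : ℝ} (hε : 0 < ε)
    (huv : ∀ x, x ∈ S_U C R i → x ∈ S_U C R j → x ≠ i → x ≠ j → |u x - v x| ≤ ε) :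
    Integrable (fun z => u ((chartAt ℂ i).symm z) *
        (ball (chartAt ℂ i i) (R i)).indicator (fun z =>
          g ((chartAt ℂ i).symm z) * lap (fun z => f ((chartAt ℂ i).symm z)) z) z) ∧
    Integrable (fun z => v ((chartAt ℂ j).symm z) *
        (ball (chartAt ℂ j j) (R j)).indicator (fun z =>
          g ((chartAt ℂ j).symm z) * lap (fun z => f ((chartAt ℂ j).symm z)) z) z) ∧
    ∫ z, u ((chartAt ℂ i).symm z) *
        (ball (chartAt ℂ i i) (R i)).indicator (fun z =>
          g ((chartAt ℂ i).symm z) * lap (fun z => f ((chartAt ℂ i).symm z)) z) z ≤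
    (∫ z, v ((chartAt ℂ j).symm z) *
        (ball (chartAt ℂ j j) (R j)).indicator (fun z =>
          g ((chartAt ℂ j).symm z) * lap (fun z => f ((chartAt ℂ j).symm z)) z) z) +
      ε * ∫ z, |(ball (chartAt ℂ j j) (R j)).indicator (fun z =>
          g ((chartAt ℂ j).symm z) * lap (fun z => f ((chartAt ℂ j).symm z)) z) z| := by
  obtain ⟨hK, hKB⟩ := S_image hfs
  obtain ⟨hK', hKB'⟩ := S_image hgs
  obtain ⟨a1, -, a3, a4⟩ := A5_pair1 hsub hu hf hg j hK hKB (by
      intro z hz hzK
      rw [S_off hz (S_notin hz hzK), mul_zero]) (by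
      intro z hz hzs
      rw [S_off0 (f := g) (fun hm => hzs (hgs hm).1), zero_mul])
  obtain ⟨b1, b2, b3, b4⟩ := A5_pair1 hsub hv hf hg i hK' hKB' (by
      intro z hz hzK
      rw [S_off0 (f := g) (S_notin hz hzK), zero_mul]) (by
      intro z hz hzs
      rw [S_off hz (fun hm => hzs (hfs hm).1), mul_zero])
  refine ⟨a1, b1, ?_⟩
  rw [← a4, ← b4, transfer hf (fun x => u x * g x) i j]
  have c3 := A5_transfer hf (fun x => u x * g x) i j a3
  have hO' : MeasurableSet ((chartAt ℂ j).target ∩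
      (chartAt ℂ j).symm ⁻¹' (chartAt ℂ i).source) :=
    ((chartAt ℂ j).symm.isOpen_inter_preimage (chartAt ℂ i).open_source).measurableSet
  have hfinz : ∀ᵐ z : ℂ, z ≠ chartAt ℂ j i ∧ z ≠ chartAt ℂ j j := by
    have h1 : ∀ a : ℂ, ∀ᵐ z : ℂ, z ≠ a := fun a => by
      rw [ae_iff]
      simp
    exact (h1 _).and (h1 _)
  have hbd : ∀ᵐ z ∂(volume.restrict ((chartAt ℂ j).target ∩
      (chartAt ℂ j).symm ⁻¹' (chartAt ℂ i).source)),
      ‖((fun x => u x * g x) ((chartAt ℂ j).symm z) *
          lap (fun z => f ((chartAt ℂ j).symm z)) z) -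
        ((fun x => v x * g x) ((chartAt ℂ j).symm z) *
          lap (fun z => f ((chartAt ℂ j).symm z)) z)‖ ≤
      ε * |(ball (chartAt ℂ j j) (R j)).indicator (fun z =>
          g ((chartAt ℂ j).symm z) * lap (fun z => f ((chartAt ℂ j).symm z)) z) z| := by
    rw [ae_restrict_iff' hO']
    filter_upwards [hfinz] with z hz hzO
    have e1 : ((fun x => u x * g x) ((chartAt ℂ j).symm z) *
          lap (fun z => f ((chartAt ℂ j).symm z)) z) -
        ((fun x => v x * g x) ((chartAt ℂ j).symm z) *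
          lap (fun z => f ((chartAt ℂ j).symm z)) z) =
        (u ((chartAt ℂ j).symm z) - v ((chartAt ℂ j).symm z)) *
          (g ((chartAt ℂ j).symm z) * lap (fun z => f ((chartAt ℂ j).symm z)) z) := by
      simp only
      ring
    rw [e1, Real.norm_eq_abs, abs_mul]
    by_cases hg0 : (chartAt ℂ j).symm z ∈ tsupport g
    · by_cases hf0 : (chartAt ℂ j).symm z ∈ tsupport f
      · have hzB : z ∈ ball (chartAt ℂ j j) (R j) :=
          hKB' ⟨_, hg0, (chartAt ℂ j).right_inv hzO.1⟩
        rw [Set.indicator_of_mem hzB]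
        refine mul_le_mul_of_nonneg_right (huv _ (hfs hf0) (hgs hg0) ?_ ?_) (abs_nonneg _)
        · intro he
          apply hz.1
          rw [← he, (chartAt ℂ j).right_inv hzO.1]
        · intro he
          apply hz.2
          have h2 := congrArg (chartAt ℂ j) he
          rwa [(chartAt ℂ j).right_inv hzO.1] at h2
      · rw [S_off hzO.1 hf0, mul_zero, abs_zero, mul_zero]
        positivity
    · rw [S_off0 (f := g) hg0, zero_mul, abs_zero, mul_zero]
      positivity
  have hint : Integrable (fun z => ε * |(ball (chartAt ℂ j j) (R j)).indicator (fun z =>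
          g ((chartAt ℂ j).symm z) * lap (fun z => f ((chartAt ℂ j).symm z)) z) z|) :=
    b2.abs.const_mul ε
  have h5 := norm_integral_le_of_norm_le hint.restrict hbd
  rw [integral_sub c3 b3] at h5
  have h6 : ∫ z in (chartAt ℂ j).target ∩ (chartAt ℂ j).symm ⁻¹' (chartAt ℂ i).source,
      ε * |(ball (chartAt ℂ j j) (R j)).indicator (fun z =>
          g ((chartAt ℂ j).symm z) * lap (fun z => f ((chartAt ℂ j).symm z)) z) z| ≤
      ε * ∫ z, |(ball (chartAt ℂ j j) (R j)).indicator (fun z =>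
          g ((chartAt ℂ j).symm z) * lap (fun z => f ((chartAt ℂ j).symm z)) z) z| :=
    (setIntegral_le_integral hint (Eventually.of_forall fun z => by positivity)).trans
      (le_of_eq (integral_const_mul _ _))
  have h7 := (le_abs_self _).trans ((h5.trans h6) : |_| ≤ _)
  linarith

end

theorem sum_le_approx {C : Type} [TopologicalSpace C] [ChartedSpace ℂ C] [IsManifold 𝓘(ℂ) ω C]
    [CompactSpace C] [T2Space C] {m : C → ℤ} {R : C → ℝ} (hR : ∀ c, 0 < R c)
    (hsub : ∀ c, ball (chartAt ℂ c c) (R c) ⊆ (chartAt ℂ c).target)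
    (hz : ∀ c, ∀ z ∈ ball (chartAt ℂ c c) (R c), z ≠ chartAt ℂ c c → m ((chartAt ℂ c).symm z) = 0)
    (h : ∀ (t : Finset C) (ε : ℝ), 0 < ε → ∃ u : C → C → ℝ,
      (∀ c ∈ t, A5Loc (fun z => u c ((chartAt ℂ c).symm z)) (chartAt ℂ c c) (R c) (m c)) ∧
      ∀ c ∈ t, ∀ c' ∈ t, ∀ x, x ∈ S_U C R c → x ∈ S_U C R c' → x ≠ c → x ≠ c' →
        |u c x - u c' x| ≤ ε) :
    ∑ᶠ c, m c ≤ 0 := by
  classical
  have : IsManifold 𝓘(ℝ, ℂ) ∞ C := real_manifold C
  obtain ⟨t, ht⟩ := isCompact_univ.elim_nhds_subcover (S_U C R)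
    (fun c _ => (S_U_open R c).mem_nhds (S_U_mem hR c))
  have hcov : ∀ x : C, ∃ i ∈ t, x ∈ S_U C R i := by
    intro x
    have := ht.2 (Set.mem_univ x)
    simpa using this
  have hsupp : Function.support m ⊆ (t : Set C) := by
    intro x hx
    obtain ⟨i, hi, hxi⟩ := hcov x
    by_cases hne : x = i
    · rw [hne]; exact hi
    · exact absurd (A5_other hz hxi hne) hx
  rw [finsum_eq_sum_of_support_subset m hsupp]
  -- partition of unity
  obtain ⟨ψ, hψ⟩ := SmoothPartitionOfUnity.exists_isSubordinate 𝓘(ℝ, ℂ) (isClosed_univ (X := C))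
    (fun i : t => S_U C R i) (fun i => S_U_open R i) (fun x _ => by
      obtain ⟨i, hi, hxi⟩ := hcov x
      exact Set.mem_iUnion.mpr ⟨⟨i, hi⟩, hxi⟩)
  have hsm : ∀ i, ContMDiff 𝓘(ℝ, ℂ) 𝓘(ℝ, ℝ) ∞ (ψ i : C → ℝ) := fun i => (ψ i).contMDiff
  have hnn : ∀ i x, 0 ≤ ψ i x := fun i x => ψ.nonneg i x
  have hsum : ∀ x, ∑ i, ψ i x = 1 := by
    intro x
    have := ψ.sum_eq_one (Set.mem_univ x)
    rwa [finsum_eq_sum_of_fintype] at this
  have hsup : ∀ i : t, tsupport (ψ i : C → ℝ) ⊆ S_U C R i := fun i => hψ i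
  -- the value of ψ_i at the centre
  have hone : ∀ i : t, (m i : ℝ) * ψ i i = m i := by
    intro i
    by_cases hmi : m i = 0
    · simp [hmi]
    · have h1 : ∀ j : t, j ≠ i → ψ j (i : C) = 0 := by
        intro j hj
        refine image_eq_zero_of_notMem_tsupport (fun hmem => hmi ?_)
        exact A5_other hz (hsup j hmem) (fun he => hj (Subtype.ext he.symm))
      have h2 := hsum (i : C)
      rw [Finset.sum_eq_single i (fun j _ hj => h1 j hj)
        (fun h => absurd (Finset.mem_univ i) h)] at h2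
      rw [h2, mul_one]
  -- the constants
  let K : t → t → ℝ := fun i j => ∫ z, |(ball (chartAt ℂ (j : C) j) (R j)).indicator (fun z =>
      ψ j ((chartAt ℂ (j : C)).symm z) * lap (fun z => ψ i ((chartAt ℂ (j : C)).symm z)) z) z|
  have hK0 : 0 ≤ ∑ i : t, ∑ j, K i j :=
    Finset.sum_nonneg fun i _ => Finset.sum_nonneg fun j _ => integral_nonneg fun z => abs_nonneg _
  have hfin : ∀ ε : ℝ, 0 < ε → (∑ i : t, (m i : ℝ)) * kap ≤ ε * ∑ i : t, ∑ j, K i j := by
    intro ε hε
    obtain ⟨u, hloc, hcmp⟩ := h t ε hε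
    -- the two families of integrals
    let A : t → t → ℂ → ℝ := fun i j z => u i ((chartAt ℂ (i : C)).symm z) *
      (ball (chartAt ℂ (i : C) i) (R i)).indicator (fun z =>
        ψ j ((chartAt ℂ (i : C)).symm z) * lap (fun z => ψ i ((chartAt ℂ (i : C)).symm z)) z) z
    let B : t → t → ℂ → ℝ := fun i j z => u j ((chartAt ℂ (j : C)).symm z) *
      (ball (chartAt ℂ (j : C) j) (R j)).indicator (fun z =>
        ψ j ((chartAt ℂ (j : C)).symm z) * lap (fun z => ψ i ((chartAt ℂ (j : C)).symm z)) z) z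
    have hAB : ∀ i j : t, Integrable (A i j) ∧ Integrable (B i j) ∧
        ∫ z, A i j z ≤ (∫ z, B i j z) + ε * K i j := fun i j =>
      A5_comp hsub (hsm i) (hsm j) (hsup i) (hsup j) (hloc i i.2) (hloc j j.2) hε
        (hcmp i i.2 j j.2)
    -- the sums
    have hsA : ∀ i : t, ∑ j, ∫ z, A i j z = ∫ z, u i ((chartAt ℂ (i : C)).symm z) *
        (ball (chartAt ℂ (i : C) i) (R i)).indicator
          (lap (fun z => ψ i ((chartAt ℂ (i : C)).symm z))) z := by
      intro i
      rw [← integral_finsetSum _ (fun j _ => (hAB i j).1)]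
      refine integral_congr_ae (Eventually.of_forall fun z => ?_)
      simp only [A]
      rw [← Finset.mul_sum]
      congr 1
      by_cases hz : z ∈ ball (chartAt ℂ (i : C) i) (R i)
      · simp only [Set.indicator_of_mem hz]
        rw [← Finset.sum_mul, hsum, one_mul]
      · simp only [Set.indicator_of_notMem hz, Finset.sum_const_zero]
    have hsB : ∀ j : t, ∑ i, ∫ z, B i j z = 0 := by
      intro j
      rw [← integral_finsetSum _ (fun i _ => (hAB i j).2.1)]
      have hz0 : ∀ z, ∑ i, B i j z = 0 := by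
        intro z
        simp only [B]
        rw [← Finset.mul_sum]
        by_cases hz : z ∈ ball (chartAt ℂ (j : C) j) (R j)
        · simp only [Set.indicator_of_mem hz]
          rw [← Finset.mul_sum, ← lap_sum Finset.univ (f := fun i : t => fun z =>
            ψ i ((chartAt ℂ (j : C)).symm z)) (fun i _ =>
              (smooth_chart (hsm i) (j : C)).contDiffAt
                ((chartAt ℂ (j : C)).open_target.mem_nhds (hsub j hz)))]
          simp only [hsum]
          rw [lap_const, mul_zero, mul_zero]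
        · simp only [Set.indicator_of_notMem hz, Finset.sum_const_zero, mul_zero]
      simp only [hz0, integral_zero]
    calc (∑ i : t, (m i : ℝ)) * kap = ∑ i : t, (m i : ℝ) * kap * ψ i i := by
          rw [Finset.sum_mul]
          refine Finset.sum_congr rfl (fun i _ => ?_)
          rw [mul_right_comm, hone i]
      _ ≤ ∑ i : t, ∑ j, ∫ z, A i j z := by
          refine Finset.sum_le_sum (fun i _ => ?_)
          rw [hsA i]
          exact A5_local1 hR hsub (hloc i i.2) (hsm i) (hsup i) (hnn i)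
      _ ≤ ∑ i : t, ∑ j, ((∫ z, B i j z) + ε * K i j) :=
          Finset.sum_le_sum (fun i _ => Finset.sum_le_sum (fun j _ => (hAB i j).2.2))
      _ = (∑ i : t, ∑ j, ∫ z, B i j z) + ε * ∑ i : t, ∑ j, K i j := by
          simp only [Finset.sum_add_distrib, Finset.mul_sum]
      _ = ε * ∑ i : t, ∑ j, K i j := by
          rw [Finset.sum_comm, Finset.sum_eq_zero (fun j _ => hsB j), zero_add]
  have h3 : (∑ i : t, (m i : ℝ)) ≤ 0 := by
    by_contra hlt
    push Not at hlt
    have hX : 0 < (∑ i : t, (m i : ℝ)) * kap := mul_pos hlt kap_pos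
    have h4 := hfin (((∑ i : t, (m i : ℝ)) * kap) / ((∑ i : t, ∑ j, K i j) + 1))
      (by positivity)
    rw [div_mul_eq_mul_div, le_div_iff₀ (by positivity)] at h4
    nlinarith
  rw [← Finset.sum_coe_sort t m]
  exact_mod_cast h3

end Pool.Agent.Nef6.DM
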