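import Pool.Agent.H.MP_6a1d6a_ag.DM.A2

/-!
MP_6a1d6a_ag/DM, module B1: comparison of the radii in two charts.

`rad' ≤ (1 + ε) rad`: otherwise `r' = (1 + ε) rad < rad' < R'`, and by `disc_mono`, the hypothesis and `rad_eq`:
`r' * disc' r' ≥ (1 + ε) * rad * disc' rad ≥ rad * disc rad = T`, while `r' * disc' r' ≤ T` by `rad_iff`; so equality and `r' = rad'` by `rad_unique`, a contradiction.
(`rad < r' < R'`, so all discs are in `U'`.) `log_close` follows by applying this twice.
-/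

set_option autoImplicit false

open Set Filter Topology Metric

namespace Pool.Agent.Nef6.DM

variable {V : Type} [NormedAddCommGroup V] [NormedSpace ℂ V] {h h' : V → V → ℝ} {U U' : Set V}
  {T R R' ε : ℝ} {x v x' v' : V}

theorem rad_le (hh : IsSemi h U) (hh' : IsSemi h' U') (hε : 0 < ε) (g : Good h U T x v R)
    (g' : Good h' U' T x' v' R')
    (hd : disc h x v (rad h T x v R) ≤ (1 + ε) * disc h' x' v' (rad h T x v R)) :
    rad h' T x' v' R' ≤ (1 + ε) * rad h T x v R := by
  obtain ⟨h1, h2, h3⟩ := rad_eq hh g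
  obtain ⟨h1', h2', h3'⟩ := rad_eq hh' g'
  set ρ := rad h T x v R with hρ
  set ρ' := rad h' T x' v' R' with hρ'
  by_contra hcon
  push Not at hcon
  have h4 : ρ ≤ (1 + ε) * ρ := by nlinarith
  have h5 : 0 < (1 + ε) * ρ := by positivity
  have h6 : disc h' x' v' ρ ≤ disc h' x' v' ((1 + ε) * ρ) :=
    disc_mono hh' h1.le h4 (g'.inU.mono (hcon.le.trans h2'.le))
  have h7 : (1 + ε) * ρ * disc h' x' v' ((1 + ε) * ρ) < ρ' * disc h' x' v' ρ' :=
    mul_disc_lt hh' g'.hv h5 hcon (g'.inU.mono h2'.le)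
  have h8 : (1 + ε) * ρ * disc h' x' v' ρ ≤ (1 + ε) * ρ * disc h' x' v' ((1 + ε) * ρ) :=
    mul_le_mul_of_nonneg_left h6 h5.le
  have h9 : ρ * disc h x v ρ ≤ ρ * ((1 + ε) * disc h' x' v' ρ) :=
    mul_le_mul_of_nonneg_left hd h1.le
  rw [h3'] at h7
  rw [h3] at h9
  have h10 : ρ * ((1 + ε) * disc h' x' v' ρ) = (1 + ε) * ρ * disc h' x' v' ρ := by ring
  linarith

theorem log_close (hh : IsSemi h U) (hh' : IsSemi h' U') (hε : 0 < ε) (g : Good h U T x v R)
    (g' : Good h' U' T x' v' R')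
    (hd : disc h x v (rad h T x v R) ≤ (1 + ε) * disc h' x' v' (rad h T x v R))
    (hd' : disc h' x' v' (rad h' T x' v' R') ≤ (1 + ε) * disc h x v (rad h' T x' v' R')) :
    |Real.log (rad h T x v R) - Real.log (rad h' T x' v' R')| ≤ ε := by
  have h1 := rad_le hh hh' hε g g' hd
  have h2 := rad_le hh' hh hε g' g hd'
  have h3 := (rad_eq hh g).1
  have h3' := (rad_eq hh' g').1
  set ρ := rad h T x v R with hρ
  set ρ' := rad h' T x' v' R' with hρ'
  have hle : Real.log (1 + ε) ≤ ε := by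
    have := Real.log_le_sub_one_of_pos (by linarith : (0 : ℝ) < 1 + ε)
    linarith
  have h4 : Real.log ρ' ≤ Real.log (1 + ε) + Real.log ρ := by
    rw [← Real.log_mul (by positivity) h3.ne']
    exact Real.log_le_log h3' h1
  have h5 : Real.log ρ ≤ Real.log (1 + ε) + Real.log ρ' := by
    rw [← Real.log_mul (by positivity) h3'.ne']
    exact Real.log_le_log h3 h2
  rw [abs_le]
  constructor <;> linarith

end Pool.Agent.Nef6.DM
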