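import Pool.Agent.H.MP_6a1d6a_ag.DM.Def
import Pool.Agent.H.MP_6a1d6a_ag.DM.A1
import Pool.Agent.H.MP_6a1d6a_ag.CC.Tr

/-!
MP_6a1d6a_ag/DM, module B2: the stability of the lengths of discs, uniformly on compact sets.

For `y ∈ Q` take `W`, `r₀` from `X.stable i j y` and shrink so that all discs of radius `r < r₀` and directions of norm 1 about `ch i y'`, `y' ∈ W`, and the image discs
(the direction `D v` has norm `≤ C`) are in the targets (openness); cover `Q` by finitely many `W`s. For `v ≠ 0` and `‖v‖ * r < r₀` write `v = c • v₁`, `c = ‖v‖`, `‖v₁‖ = 1`: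
`disc_smul` and linearity of the derivative reduce to `v₁` and the radius `‖v‖ * r`.
For the second inequality exchange the roles: `X.stable j i`, the vector `w = D v`, `D' w = v` (`tr_comp`, `tr_id` in `CC/Tr.lean`), `‖w‖ ≤ C ‖v‖` with
`C` a bound of the norm of the derivative on the compact set `ch i '' Q` (`tr_smooth`: the derivative is continuous).
-/

set_option autoImplicit false

open Set Filter Topology Metric
open scoped ContDiff Manifold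
open Pool.Agent.Nef6.SN (E Chart)

namespace Pool.Agent.Nef6.DM

variable {N : ℕ} {Y : Type} [TopologicalSpace Y] [ChartedSpace (E N) Y] [IsManifold 𝓘(ℂ, E N) ω Y]

private theorem B2_half (X : DiscMetric N Y) (i j : X.J) {y₀ : Y} (hi : y₀ ∈ (X.ch i).source)
    (hj : y₀ ∈ (X.ch j).source) {ε : ℝ} (hε : 0 < ε) :
    ∃ r₀ > 0, ∀ᶠ y in 𝓝 y₀, y ∈ (X.ch i).source → y ∈ (X.ch j).source →
      ∀ v : E N, v ≠ 0 → ∀ r, 0 < r → ‖v‖ * r < r₀ →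
      InU (X.ch i).target (X.ch i y) v r →
      InU (X.ch j).target (X.ch j y) (fderiv ℂ (X.ch j ∘ (X.ch i).symm) (X.ch i y) v) r →
      disc (X.h j) (X.ch j y) (fderiv ℂ (X.ch j ∘ (X.ch i).symm) (X.ch i y) v) r ≤
        (1 + ε) * disc (X.h i) (X.ch i y) v r := by
  obtain ⟨W, hW, hyW, r₀, hr₀, h⟩ := X.stable i j y₀ hi hj ε hε
  refine ⟨r₀, hr₀, ?_⟩
  filter_upwards [hW.mem_nhds hyW] with y hy hyi hyj v hv r hr hvr hin hin'
  have hn : 0 < ‖v‖ := norm_pos_iff.2 hv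
  obtain ⟨c, hc⟩ : ∃ c : ℂ, c = ((‖v‖ : ℝ) : ℂ) := ⟨_, rfl⟩
  have hcn : ‖c‖ = ‖v‖ := by rw [hc, Complex.norm_real, norm_norm]
  have hc0 : c ≠ 0 := by
    rw [← norm_pos_iff, hcn]
    exact hn
  obtain ⟨v₁, hv₁⟩ : ∃ v₁ : E N, v₁ = c⁻¹ • v := ⟨_, rfl⟩
  have hv₁n : ‖v₁‖ = 1 := by
    rw [hv₁, norm_smul, norm_inv, hcn, inv_mul_cancel₀ hn.ne']
  have hvc : v = c • v₁ := by
    rw [hv₁, smul_smul, mul_inv_cancel₀ hc0, one_smul]
  have hcr : ‖c‖ * r < r₀ := by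
    rw [hcn]
    exact hvr
  have hcr0 : 0 < ‖c‖ * r := by
    rw [hcn]
    exact mul_pos hn hr
  have h1 := h y hy hyi hyj v₁ hv₁n (‖c‖ * r) hcr0 hcr
  rw [hvc] at hin hin' ⊢
  rw [map_smul] at hin' ⊢
  rw [disc_smul (X.semi j) hr.le (hin'.of_smul hc0), disc_smul (X.semi i) hr.le (hin.of_smul hc0)]
  have h2 := mul_le_mul_of_nonneg_left h1 (norm_nonneg c)
  linarith

private theorem B2_inU (φ : Chart N Y) {y₀ : Y} (hi : y₀ ∈ φ.source) :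
    ∃ δ > 0, ∀ᶠ y in 𝓝 y₀, ∀ v : E N, ∀ r, ‖v‖ * r < δ → InU φ.target (φ y) v r := by
  obtain ⟨δ, hδ, h⟩ := Metric.isOpen_iff.1 φ.open_target (φ y₀) (φ.map_source hi)
  refine ⟨δ / 2, half_pos hδ, ?_⟩
  have h1 : ∀ᶠ y in 𝓝 y₀, φ y ∈ ball (φ y₀) (δ / 2) :=
    (φ.continuousAt hi).eventually_mem (ball_mem_nhds _ (half_pos hδ))
  filter_upwards [h1] with y hy v r hvr s hs
  refine h ?_
  rw [mem_ball, dist_eq_norm] at hy ⊢
  have h2 : φ y + s • v - φ y₀ = (φ y - φ y₀) + s • v := by abel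
  rw [h2]
  have h3 : ‖s • v‖ ≤ ‖v‖ * r := by
    rw [norm_smul, mul_comm]
    exact mul_le_mul_of_nonneg_left hs (norm_nonneg v)
  have h4 := norm_add_le (φ y - φ y₀) (s • v)
  linarith

private theorem B2_loc (X : DiscMetric N Y) (i j : X.J) {y₀ : Y} (hi : y₀ ∈ (X.ch i).source)
    (hj : y₀ ∈ (X.ch j).source) {ε : ℝ} (hε : 0 < ε) :
    ∃ r₀ > 0, ∀ᶠ y in 𝓝 y₀, ∀ v : E N, v ≠ 0 → ∀ r, 0 < r → ‖v‖ * r < r₀ →
      InU (X.ch i).target (X.ch i y) v r ∧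
      InU (X.ch j).target (X.ch j y) (fderiv ℂ (X.ch j ∘ (X.ch i).symm) (X.ch i y) v) r ∧
      disc (X.h j) (X.ch j y) (fderiv ℂ (X.ch j ∘ (X.ch i).symm) (X.ch i y) v) r ≤
        (1 + ε) * disc (X.h i) (X.ch i y) v r ∧
      disc (X.h i) (X.ch i y) v r ≤ (1 + ε) *
        disc (X.h j) (X.ch j y) (fderiv ℂ (X.ch j ∘ (X.ch i).symm) (X.ch i y) v) r := by
  obtain ⟨r₁, hr₁, h₁⟩ := B2_half X i j hi hj hε
  obtain ⟨r₂, hr₂, h₂⟩ := B2_half X j i hj hi hε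
  obtain ⟨δ₁, hδ₁, k₁⟩ := B2_inU (X.ch i) hi
  obtain ⟨δ₂, hδ₂, k₂⟩ := B2_inU (X.ch j) hj
  have hD : ContinuousAt (fun y => fderiv ℂ (X.ch j ∘ (X.ch i).symm) (X.ch i y)) y₀ := by
    have h1 := ((CC.tr_smooth (X.hol i) (X.hol j) hi hj).fderiv_right (m := 0)
      (by simp)).continuousAt
    exact ContinuousAt.comp (f := X.ch i) h1 ((X.ch i).continuousAt hi)
  obtain ⟨C, hC⟩ : ∃ C : ℝ, C = ‖fderiv ℂ (X.ch j ∘ (X.ch i).symm) (X.ch i y₀)‖ + 1 := ⟨_, rfl⟩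
  have hC0 : 0 < C := by
    rw [hC]
    positivity
  have hDC : ∀ᶠ y in 𝓝 y₀, ‖fderiv ℂ (X.ch j ∘ (X.ch i).symm) (X.ch i y)‖ < C := by
    refine hD.norm.eventually_lt_const ?_
    rw [hC]
    exact lt_add_one _
  refine ⟨min (min r₁ δ₁) (min (r₂ / C) (δ₂ / C)), by positivity, ?_⟩
  filter_upwards [h₁, h₂, k₁, k₂, hDC, (X.ch i).open_source.mem_nhds hi,
    (X.ch j).open_source.mem_nhds hj] with y h₁ h₂ k₁ k₂ hDC hyi hyj v hv r hr hvr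
  obtain ⟨hv12, hv34⟩ := lt_min_iff.1 hvr
  obtain ⟨hv1, hv2⟩ := lt_min_iff.1 hv12
  obtain ⟨hv3, hv4⟩ := lt_min_iff.1 hv34
  obtain ⟨w, hw⟩ : ∃ w : E N, w = fderiv ℂ (X.ch j ∘ (X.ch i).symm) (X.ch i y) v := ⟨_, rfl⟩
  have hwn : ‖w‖ * r ≤ C * (‖v‖ * r) := by
    have h3 : ‖w‖ ≤ C * ‖v‖ := by
      rw [hw]
      exact (ContinuousLinearMap.le_opNorm _ _).trans
        (mul_le_mul_of_nonneg_right hDC.le (norm_nonneg v))
    have h4 := mul_le_mul_of_nonneg_right h3 hr.le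
    linarith
  have hw2 : ‖w‖ * r < r₂ := by
    rw [lt_div_iff₀ hC0] at hv3
    linarith
  have hw4 : ‖w‖ * r < δ₂ := by
    rw [lt_div_iff₀ hC0] at hv4
    linarith
  have hback : fderiv ℂ (X.ch i ∘ (X.ch j).symm) (X.ch j y) w = v := by
    rw [hw, CC.tr_comp (X.hol i) (X.hol j) (X.hol i) hyi hyj hyi, CC.tr_id hyi]
  have hw0 : w ≠ 0 := by
    intro h3
    rw [h3, map_zero] at hback
    exact hv hback.symm
  have a1 := k₁ v r hv2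
  have a2 := k₂ w r hw4
  have a3 := h₁ hyi hyj v hv r hr hv1 a1 (by rw [← hw]; exact a2)
  have a4 := h₂ hyj hyi w hw0 r hr hw2 a2 (by rw [hback]; exact a1)
  rw [hback] at a4
  rw [← hw] at a3 ⊢
  exact ⟨a1, a2, a3, a4⟩

theorem stable_compact (X : DiscMetric N Y) (i j : X.J) {Q : Set Y} (hQ : IsCompact Q)
    (hi : Q ⊆ (X.ch i).source) (hj : Q ⊆ (X.ch j).source) {ε : ℝ} (hε : 0 < ε) :
    ∃ r₀ > 0, ∀ y ∈ Q, ∀ v : E N, v ≠ 0 → ∀ r, 0 < r → ‖v‖ * r < r₀ →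
      InU (X.ch i).target (X.ch i y) v r ∧
      InU (X.ch j).target (X.ch j y) (fderiv ℂ (X.ch j ∘ (X.ch i).symm) (X.ch i y) v) r ∧
      disc (X.h j) (X.ch j y) (fderiv ℂ (X.ch j ∘ (X.ch i).symm) (X.ch i y) v) r ≤
        (1 + ε) * disc (X.h i) (X.ch i y) v r ∧
      disc (X.h i) (X.ch i y) v r ≤ (1 + ε) *
        disc (X.h j) (X.ch j y) (fderiv ℂ (X.ch j ∘ (X.ch i).symm) (X.ch i y) v) r := by
  refine hQ.induction_on (p := fun S => ∃ r₀ > 0, ∀ y ∈ S, ∀ v : E N, v ≠ 0 → ∀ r, 0 < r →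
      ‖v‖ * r < r₀ → InU (X.ch i).target (X.ch i y) v r ∧
      InU (X.ch j).target (X.ch j y) (fderiv ℂ (X.ch j ∘ (X.ch i).symm) (X.ch i y) v) r ∧
      disc (X.h j) (X.ch j y) (fderiv ℂ (X.ch j ∘ (X.ch i).symm) (X.ch i y) v) r ≤
        (1 + ε) * disc (X.h i) (X.ch i y) v r ∧
      disc (X.h i) (X.ch i y) v r ≤ (1 + ε) *
        disc (X.h j) (X.ch j y) (fderiv ℂ (X.ch j ∘ (X.ch i).symm) (X.ch i y) v) r) ?_ ?_ ?_ ?_
  · exact ⟨1, one_pos, fun y hy => absurd hy (Set.notMem_empty y)⟩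
  · rintro S T hST ⟨r₀, hr₀, h⟩
    exact ⟨r₀, hr₀, fun y hy => h y (hST hy)⟩
  · rintro S T ⟨r₁, hr₁, h₁⟩ ⟨r₂, hr₂, h₂⟩
    refine ⟨min r₁ r₂, lt_min hr₁ hr₂, fun y hy v hv r hr hvr => ?_⟩
    obtain ⟨h3, h4⟩ := lt_min_iff.1 hvr
    rcases hy with hy | hy
    · exact h₁ y hy v hv r hr h3
    · exact h₂ y hy v hv r hr h4
  · intro y₀ hy₀
    obtain ⟨r₀, hr₀, h⟩ := B2_loc X i j (hi hy₀) (hj hy₀) hε
    exact ⟨_, mem_nhdsWithin_of_mem_nhds h, r₀, hr₀, fun y hy => hy⟩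

end Pool.Agent.Nef6.DM
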