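import Pool.Agent.H.MP_6a1d6a_ag.DM.A2

/-!
MP_6a1d6a_ag/DM, module B3: the radii are small for small `T`.

`exists_R`: `x '' K` is a compact subset of the open set `U`, so it has a positive distance to the complement (`IsCompact.exists_cthickening_subset_open`), and `‖g z‖` is bounded on `K`.
`exists_T`: let `ρ = min R (r₁ / (C + 1))` with `‖g z‖ ≤ C` on `K`; `T₀` is the minimum of the continuous positive function
`z ↦ ρ * disc h (x z) (g z) ρ` on `K` (`disc_cont`, `disc_pos`). For `T < T₀` we have `T < ρ * disc ρ ≤ R * disc R` (`disc_mono`), so `Good`, and `rad < ρ` by `rad_iff`.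
(`K` may be empty.)
-/

set_option autoImplicit false

open Set Filter Topology Metric

namespace Pool.Agent.Nef6.DM

variable {V : Type} [NormedAddCommGroup V] [NormedSpace ℂ V] {h : V → V → ℝ} {U : Set V}
  {Z : Type} [TopologicalSpace Z] {K : Set Z} {x g : Z → V}

theorem exists_R (hU : IsOpen U) (hK : IsCompact K) (hx : ContinuousOn x K) (hg : ContinuousOn g K)
    (hxU : ∀ z ∈ K, x z ∈ U) : ∃ R > 0, ∀ z ∈ K, InU U (x z) (g z) R := by
  obtain ⟨C, hC⟩ := hK.exists_bound_of_continuousOn hg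
  obtain ⟨δ, hδ, hsub⟩ := (hK.image_of_continuousOn hx).exists_cthickening_subset_open hU
    (image_subset_iff.2 hxU)
  have hC' : 0 < max C 0 + 1 := by
    have := le_max_right C 0
    linarith
  refine ⟨δ / (max C 0 + 1), div_pos hδ hC', fun z hz s hs => ?_⟩
  refine hsub (mem_cthickening_of_dist_le _ (x z) _ _ (mem_image_of_mem x hz) ?_)
  rw [dist_eq_norm, add_sub_cancel_left, norm_smul]
  have h1 : ‖g z‖ ≤ max C 0 + 1 := by
    have := hC z hz
    have := le_max_left C 0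
    linarith
  calc ‖s‖ * ‖g z‖ ≤ δ / (max C 0 + 1) * (max C 0 + 1) :=
        mul_le_mul hs h1 (norm_nonneg _) (div_pos hδ hC').le
    _ = δ := div_mul_cancel₀ _ hC'.ne'

theorem exists_T (hh : IsSemi h U) (hK : IsCompact K) (hx : ContinuousOn x K)
    (hg : ContinuousOn g K) (h0 : ∀ z ∈ K, g z ≠ 0) {R : ℝ} (hR : 0 < R)
    (hi : ∀ z ∈ K, InU U (x z) (g z) R) {r₁ : ℝ} (hr : 0 < r₁) :
    ∃ T₀ > 0, ∀ T, 0 < T → T < T₀ → ∀ z ∈ K, Good h U T (x z) (g z) R ∧
      ‖g z‖ * rad h T (x z) (g z) R < r₁ := by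
  obtain ⟨C, hC⟩ := hK.exists_bound_of_continuousOn hg
  have hC' : 0 < max C 0 + 1 := by
    have := le_max_right C 0
    linarith
  obtain ⟨ρ, hρ⟩ : ∃ ρ : ℝ, ρ = min R (r₁ / (max C 0 + 1)) := ⟨_, rfl⟩
  have hρ0 : 0 < ρ := by
    rw [hρ]
    exact lt_min hR (div_pos hr hC')
  have hρR : ρ ≤ R := by
    rw [hρ]
    exact min_le_left _ _
  have hρr : (max C 0 + 1) * ρ ≤ r₁ := by
    have h1 : ρ ≤ r₁ / (max C 0 + 1) := by
      rw [hρ]
      exact min_le_right _ _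
    rw [le_div_iff₀ hC'] at h1
    linarith
  have hiρ : ∀ z ∈ K, InU U (x z) (g z) ρ := fun z hz => (hi z hz).mono hρR
  have hcont : ContinuousOn (fun z => ρ * disc h (x z) (g z) ρ) K :=
    continuousOn_const.mul (disc_cont hh hx hg continuousOn_const (fun _ _ => hρ0.le) hiρ)
  have hpos : ∀ z ∈ K, 0 < ρ * disc h (x z) (g z) ρ := fun z hz =>
    mul_pos hρ0 (disc_pos hh (h0 z hz) hρ0 (hiρ z hz))
  have key : ∃ T₀ > 0, ∀ z ∈ K, T₀ ≤ ρ * disc h (x z) (g z) ρ := by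
    rcases K.eq_empty_or_nonempty with he | hne
    · refine ⟨1, one_pos, fun z hz => ?_⟩
      rw [he] at hz
      exact absurd hz (notMem_empty z)
    · obtain ⟨z₀, hz₀, hmin⟩ := hK.exists_isMinOn hne hcont
      exact ⟨_, hpos z₀ hz₀, fun z hz => hmin hz⟩
  obtain ⟨T₀, hT₀, hle⟩ := key
  refine ⟨T₀, hT₀, fun T hT hTT z hz => ?_⟩
  have h1 : T < ρ * disc h (x z) (g z) ρ := hTT.trans_le (hle z hz)
  have h2 : ρ * disc h (x z) (g z) ρ ≤ R * disc h (x z) (g z) R :=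
    mul_le_mul hρR (disc_mono hh hρ0.le hρR (hi z hz)) (disc_nonneg hh hρ0.le (hiρ z hz)) hR.le
  have hG : Good h U T (x z) (g z) R := ⟨hT, hR, h0 z hz, hi z hz, h1.trans_le h2⟩
  refine ⟨hG, ?_⟩
  have h3 : rad h T (x z) (g z) R < ρ := by
    by_contra hc
    exact absurd ((rad_iff hh hG hρ0 hρR).1 (not_lt.1 hc)) (not_le.2 h1)
  have h4 := (rad_eq hh hG).1
  have h5 : ‖g z‖ ≤ max C 0 + 1 := by
    have := hC z hz
    have := le_max_left C 0
    linarith
  calc ‖g z‖ * rad h T (x z) (g z) R ≤ (max C 0 + 1) * rad h T (x z) (g z) R :=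
        mul_le_mul_of_nonneg_right h5 h4.le
    _ < (max C 0 + 1) * ρ := mul_lt_mul_of_pos_left h3 hC'
    _ ≤ r₁ := hρr

end Pool.Agent.Nef6.DM
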