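import Pool.Agent.H.MP_6a1d6a_ag.SN.Base

/-!
MP_6a1d6a_ag, degenerate metrics of nonpositive curvature: definitions.

The metric `h` (a continuous function on the tangent bundle, with plurisubharmonic logarithm) may vanish on arbitrary sets. The
theorem (`DM/Main`): if for the straight discs `s ↦ x + s v` of the charts of some covering the maximal lengths
`disc h x v r = max_{|s| ≤ r} h (x + s v) v` are positive and asymptotically (`r → 0`) independent of the chart, then `T^*Y` is nef.

Proof. Let `v (z)` be a nowhere vanishing holomorphic field along the curve `x (z)`, in a chart. For small `T > 0` let `rad T x v` be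
the number `r` with `r * disc h x v r = T`. Then `- log rad` is subharmonic in `z` (the Hartogs domain
`{(z, s) : |s| * ... < T}` is pseudoconvex), `rad T x (c v) = rad T x v / |c|`, and in another chart `rad` changes by a factor near
`1` only, uniformly if `T` is small. So `- log rad T x σ` for a meromorphic field `σ` along a compact curve is, up to an error
tending to `0` with `T`, a global function with singularities `o c * log |z|` and otherwise subharmonic: `∑ o c ≤ 0`.
-/

set_option autoImplicit false

open Set Filter Topology Metric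
open scoped ContDiff Manifold

namespace Pool.Agent.Nef6.DM

variable {V : Type} [NormedAddCommGroup V] [NormedSpace ℂ V]

/-- The maximal length of the tangent vectors of the straight disc `s ↦ x + s v`, `|s| ≤ r`. -/
noncomputable def disc (h : V → V → ℝ) (x v : V) (r : ℝ) : ℝ :=
  sSup ((fun s : ℂ => h (x + s • v) v) '' closedBall 0 r)

/-- The straight disc of radius `r` is in `U`. -/
def InU (U : Set V) (x v : V) (r : ℝ) : Prop := ∀ s : ℂ, ‖s‖ ≤ r → x + s • v ∈ U

/-- `h` is a continuous, possibly degenerate complex Finsler metric on the open set `U` with plurisubharmonic logarithm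
(`h x v` is the length of the tangent vector `v` at the point `x`), which does not vanish identically along straight
discs. -/
structure IsSemi (h : V → V → ℝ) (U : Set V) : Prop where
  op : IsOpen U
  cont : ContinuousOn (fun q : V × V => h q.1 q.2) (U ×ˢ univ)
  nonneg : ∀ x ∈ U, ∀ v, 0 ≤ h x v
  smul : ∀ x ∈ U, ∀ (c : ℂ) (v : V), h x (c • v) = ‖c‖ * h x v
  psh : ∀ (x v : ℂ → V) (b : ℂ) (r : ℝ), 0 < r →
    AnalyticOnNhd ℂ x (closedBall b r) → AnalyticOnNhd ℂ v (closedBall b r) →
    (∀ z ∈ closedBall b r, x z ∈ U ∧ v z ≠ 0) → ∀ δ > 0,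
    Real.log (max δ (h (x b) (v b))) ≤
      Real.circleAverage (fun z => Real.log (max δ (h (x z) (v z)))) b r
  pos : ∀ x v, v ≠ 0 → ∀ r > 0, InU U x v r → ∃ s : ℂ, ‖s‖ ≤ r ∧ 0 < h (x + s • v) v

/-- For `T > 0`: the number `r` with `r * disc h x v r = T`, if there is one `≤ R`. -/
noncomputable def rad (h : V → V → ℝ) (T : ℝ) (x v : V) (R : ℝ) : ℝ :=
  sSup {r | 0 ≤ r ∧ r ≤ R ∧ r * disc h x v r ≤ T}

/-- The assumptions under which `rad h T x v R` makes sense. -/
structure Good (h : V → V → ℝ) (U : Set V) (T : ℝ) (x v : V) (R : ℝ) : Prop where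
  hT : 0 < T
  hR : 0 < R
  hv : v ≠ 0
  inU : InU U x v R
  lt : T < R * disc h x v R

end Pool.Agent.Nef6.DM
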