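import Pool.Agent.H.MP_6a1d6a_ag.DM.A4
import Pool.Agent.H.MP_6a1d6a_ag.SM.A5

/-!
MP_6a1d6a_ag/DM, module C1: the local form of `- log rad` (plus a multiple of the logarithm) is as required in `sum_le_approx`.

`w z = - log (rad h T (x z) (g z) R)` is continuous on the closed ball (`rad_cont`), so bounded, and satisfies the sub-mean value inequality (`rad_sub`) for the discs in the open ball; so
`wform_bdd` (`SM/A2`) gives `WForm w c ρ`.
-/

set_option autoImplicit false

open Set Filter Topology Metric MeasureTheory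
open Pool.Agent.Nef6.SM

namespace Pool.Agent.Nef6.DM

variable {V : Type} [NormedAddCommGroup V] [NormedSpace ℂ V] {h : V → V → ℝ} {U : Set V}

theorem loc_form (hh : IsSemi h U) {T R : ℝ} {x g : ℂ → V} {c : ℂ} {ρ : ℝ} (hρ : 0 < ρ)
    (hx : ∀ z ∈ closedBall c ρ, AnalyticAt ℂ x z) (hg : ∀ z ∈ closedBall c ρ, AnalyticAt ℂ g z)
    (G : ∀ z ∈ closedBall c ρ, Good h U T (x z) (g z) R) :
    WForm (fun z => - Real.log (rad h T (x z) (g z) R)) c ρ := by
  have hxc : ContinuousOn x (closedBall c ρ) := fun z hz =>
    (hx z hz).continuousAt.continuousWithinAt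
  have hgc : ContinuousOn g (closedBall c ρ) := fun z hz =>
    (hg z hz).continuousAt.continuousWithinAt
  have hr : ContinuousOn (fun z => rad h T (x z) (g z) R) (closedBall c ρ) :=
    rad_cont hh hxc hgc G
  have hw : ContinuousOn (fun z => - Real.log (rad h T (x z) (g z) R)) (closedBall c ρ) :=
    (hr.log fun z hz => (rad_eq hh (G z hz)).1.ne').neg
  obtain ⟨M, hM⟩ := (isCompact_closedBall c ρ).exists_bound_of_continuousOn hw
  have hsub : ball c ρ \ {c} ⊆ closedBall c ρ := fun z hz => ball_subset_closedBall hz.1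
  refine wform_bdd (M := M) (hw.mono hsub) ?_ fun z hz => ?_
  · intro z hz
    obtain ⟨r, hr0, hr1⟩ := Metric.isOpen_iff.1 (isOpen_ball.sdiff isClosed_singleton) z hz
    refine ⟨r / 2, by positivity, ?_, ?_⟩
    · rw [mul_div_cancel₀ _ (two_ne_zero (α := ℝ))]
      exact hr1
    · intro b hb s hs hsr
      have hbs : closedBall b s ⊆ closedBall c ρ := by
        intro y hy
        refine hsub (hr1 ?_)
        rw [mem_closedBall] at hy
        rw [mem_ball] at hb ⊢
        have h3 := dist_triangle y b z
        linarith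
      exact rad_sub hh hs (fun y hy => hx y (hbs hy)) (fun y hy => hg y (hbs hy))
        fun y hy => G y (hbs hy)
  · have h1 := hM z (hsub hz)
    rwa [Real.norm_eq_abs] at h1

end Pool.Agent.Nef6.DM
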