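import Pool.Agent.H.MP_6a1d6a_ag.DM.Base
import Pool.Agent.H.MP_6a1d6a_ag.Defs

/-!
MP_6a1d6a_ag, degenerate metrics of nonpositive curvature: definition of `DiscMetric`.
-/

set_option autoImplicit false

open Set Filter Topology Metric
open scoped ContDiff Manifold
open Pool.Agent.Nef6.SN (E Chart)

namespace Pool.Agent.Nef6.DM

/-- A continuous, possibly degenerate metric with plurisubharmonic logarithm on the complex manifold `Y`, together with
holomorphic charts `ch j` which cover `Y` and for which the maximal lengths `disc` of straight discs are asymptotically the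
same: for `r → 0` their quotient tends to `1`, locally uniformly. -/
structure DiscMetric (N : ℕ) (Y : Type) [TopologicalSpace Y] [ChartedSpace (E N) Y] where
  J : Type
  ch : J → Chart N Y
  h : J → E N → E N → ℝ
  hol : ∀ j, ch j ∈ Charts (E N) Y
  cover : ∀ y, ∃ j, y ∈ (ch j).source
  semi : ∀ j, IsSemi (h j) (ch j).target
  /-- the charts define the same metric -/
  compat : ∀ i j, ∀ y ∈ (ch i).source, y ∈ (ch j).source → ∀ v,
    h j (ch j y) (fderiv ℂ (ch j ∘ (ch i).symm) (ch i y) v) = h i (ch i y) v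
  stable : ∀ i j, ∀ y ∈ (ch i).source, y ∈ (ch j).source → ∀ ε > 0, ∃ W, IsOpen W ∧ y ∈ W ∧ ∃ r₀ > 0,
    ∀ y' ∈ W, y' ∈ (ch i).source → y' ∈ (ch j).source → ∀ v, ‖v‖ = 1 → ∀ r, 0 < r → r < r₀ →
      disc (h j) (ch j y') (fderiv ℂ (ch j ∘ (ch i).symm) (ch i y') v) r ≤
        (1 + ε) * disc (h i) (ch i y') v r

end Pool.Agent.Nef6.DM
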