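import Pool.Agent.H.MP_6a1d6a_ag.DM.A5
import Pool.Agent.H.MP_6a1d6a_ag.DM.B1
import Pool.Agent.H.MP_6a1d6a_ag.DM.B2
import Pool.Agent.H.MP_6a1d6a_ag.DM.B3
import Pool.Agent.H.MP_6a1d6a_ag.DM.C1
import Pool.Agent.H.MP_6a1d6a_ag.SM.C3

/-!
MP_6a1d6a_ag/DM, module Main: the cotangent bundle of a complex manifold with a stable degenerate metric of nonpositive curvature is nef.
-/

set_option autoImplicit false

open Set Filter Topology Metric MeasureTheory
open scoped ContDiff Manifold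
open Pool.Agent.Nef6.SN (E Chart)
open Pool.Agent.Nef6.SM

namespace Pool.Agent.Nef6.DM

theorem exists_pos_le {ι : Type} (t : Finset ι) (f : ι → ℝ) (hf : ∀ i ∈ t, 0 < f i) :
    ∃ r > 0, ∀ i ∈ t, r ≤ f i := by
  classical
  induction t using Finset.induction_on with
  | empty => exact ⟨1, one_pos, fun i hi => absurd hi (Finset.notMem_empty i)⟩
  | insert a s ha ih =>
    obtain ⟨r, hr, h⟩ := ih fun i hi => hf i (Finset.mem_insert_of_mem hi)
    refine ⟨min r (f a), lt_min hr (hf a (Finset.mem_insert_self a s)), fun i hi => ?_⟩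
    rcases Finset.mem_insert.1 hi with rfl | hi
    · exact min_le_right _ _
    · exact (min_le_left _ _).trans (h i hi)

variable {N : ℕ} {Y : Type} [TopologicalSpace Y] [ChartedSpace (E N) Y]
  [IsManifold 𝓘(ℂ, E N) ω Y]

theorem nef_disc (X : DiscMetric N Y) : CotangentNef (E N) Y := by
  intro C _ _ _ _ _ _ ν hν σ o hσ
  classical
  choose j hj using fun c => X.cover (ν c)
  choose ρ₀ g hρ₀ hsub₀ hloc using fun c => loc_curve hν hσ c (X.hol (j c)) (hj c)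
  have hcb : ∀ c, closedBall (chartAt ℂ c c) (ρ₀ c / 2) ⊆ ball (chartAt ℂ c c) (ρ₀ c) := fun c =>
    closedBall_subset_ball (by linarith [hρ₀ c])
  have hbb : ∀ c, ball (chartAt ℂ c c) (ρ₀ c / 2) ⊆ ball (chartAt ℂ c c) (ρ₀ c) := fun c =>
    ball_subset_ball (by linarith [hρ₀ c])
  obtain ⟨x, hx⟩ : ∃ x : C → ℂ → E N, x = fun c z => X.ch (j c) (ν ((chartAt ℂ c).symm z)) :=
    ⟨_, rfl⟩
  have hxe : ∀ c z, x c z = X.ch (j c) (ν ((chartAt ℂ c).symm z)) := fun c z => by rw [hx]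
  have hxa : ∀ c, ∀ z ∈ closedBall (chartAt ℂ c c) (ρ₀ c / 2), AnalyticAt ℂ (x c) z := by
    intro c z hz
    rw [hx]
    exact (hloc c z (hcb c hz)).2.1
  have hga : ∀ c, ∀ z ∈ closedBall (chartAt ℂ c c) (ρ₀ c / 2), AnalyticAt ℂ (g c) z :=
    fun c z hz => (hloc c z (hcb c hz)).2.2.1
  have hxc : ∀ c, ContinuousOn (x c) (closedBall (chartAt ℂ c c) (ρ₀ c / 2)) :=
    fun c z hz => (hxa c z hz).continuousAt.continuousWithinAt
  have hgc : ∀ c, ContinuousOn (g c) (closedBall (chartAt ℂ c c) (ρ₀ c / 2)) :=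
    fun c z hz => (hga c z hz).continuousAt.continuousWithinAt
  have hxU : ∀ c, ∀ z ∈ closedBall (chartAt ℂ c c) (ρ₀ c / 2), x c z ∈ (X.ch (j c)).target := by
    intro c z hz
    rw [hxe]
    exact (X.ch (j c)).map_source (hloc c z (hcb c hz)).1
  have hKc : ∀ c : C, IsCompact (closedBall (chartAt ℂ c c) (ρ₀ c / 2)) := fun c =>
    isCompact_closedBall _ _
  choose Rr hRr hRi using fun c => exists_R (X.semi (j c)).op (hKc c) (hxc c) (hgc c) (hxU c)
  -- the compact sets in the overlaps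
  obtain ⟨D, hD⟩ : ∃ D : C → Set C, D = fun c =>
    (chartAt ℂ c).symm '' closedBall (chartAt ℂ c c) (ρ₀ c / 2) := ⟨_, rfl⟩
  have hDc : ∀ c, IsCompact (D c) := by
    intro c
    rw [hD]
    exact (hKc c).image_of_continuousOn
      ((chartAt ℂ c).continuousOn_symm.mono ((hcb c).trans (hsub₀ c)))
  have hDs : ∀ c, ∀ y ∈ D c, ν y ∈ (X.ch (j c)).source := by
    intro c y hy
    rw [hD] at hy
    obtain ⟨z, hz, rfl⟩ := hy
    exact (hloc c z (hcb c hz)).1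
  refine sum_le_approx (m := o) (R := fun c => ρ₀ c / 2) (fun c => by linarith [hρ₀ c])
    (fun c => (hbb c).trans (hsub₀ c))
    (fun c z hz hne => ((hloc c z (hbb c hz)).2.2.2.2 hne).2) ?_
  intro t ε hε
  have hst : ∀ p : C × C, ∃ r₀ > 0, ∀ y ∈ ν '' (D p.1 ∩ D p.2), ∀ v : E N, v ≠ 0 → ∀ r, 0 < r →
      ‖v‖ * r < r₀ →
      disc (X.h (j p.1)) (X.ch (j p.1) y) v r ≤ (1 + ε) *
        disc (X.h (j p.2)) (X.ch (j p.2) y)
          (fderiv ℂ (X.ch (j p.2) ∘ (X.ch (j p.1)).symm) (X.ch (j p.1) y) v) r := by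
    intro p
    obtain ⟨r₀, h0, h1⟩ := stable_compact X (j p.1) (j p.2)
      (((hDc p.1).inter (hDc p.2)).image hν.continuous)
      (by
        rintro _ ⟨y, hy, rfl⟩
        exact hDs p.1 y hy.1)
      (by
        rintro _ ⟨y, hy, rfl⟩
        exact hDs p.2 y hy.2) hε
    exact ⟨r₀, h0, fun y hy v hv r hr hvr => (h1 y hy v hv r hr hvr).2.2.2⟩
  choose r₀ hr₀ hstab using hst
  obtain ⟨r₁, hr₁, hle⟩ := exists_pos_le (t ×ˢ t) r₀ fun p _ => hr₀ p
  choose T₀ hT₀ hGood using fun c => exists_T (X.semi (j c)) (hKc c) (hxc c) (hgc c)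
    (fun z hz => (hloc c z (hcb c hz)).2.2.2.1) (hRr c) (hRi c) hr₁
  obtain ⟨T₁, hT₁, hTle⟩ := exists_pos_le t T₀ fun c _ => hT₀ c
  obtain ⟨T, hT⟩ : ∃ T, T = T₁ / 2 := ⟨_, rfl⟩
  have hTpos : 0 < T := by rw [hT]; linarith
  have hTlt : ∀ c ∈ t, T < T₀ c := fun c hc => by
    rw [hT]
    linarith [hTle c hc]
  refine ⟨fun c y => o c * Real.log ‖chartAt ℂ c y - chartAt ℂ c c‖ +
    - Real.log (rad (X.h (j c)) T (x c (chartAt ℂ c y)) (g c (chartAt ℂ c y)) (Rr c)), ?_, ?_⟩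
  · intro c hc
    refine ⟨fun z => - Real.log (rad (X.h (j c)) T (x c z) (g c z) (Rr c)), ?_, ?_⟩
    · exact loc_form (X.semi (j c)) (by linarith [hρ₀ c]) (hxa c) (hga c)
        fun z hz => (hGood c T hTpos (hTlt c hc) z hz).1
    · refine Filter.Eventually.of_forall fun z hz => ?_
      simp only
      rw [(chartAt ℂ c).right_inv (hsub₀ c (hbb c hz))]
  · -- the values in terms of `σ`
    have key : ∀ c ∈ t, ∀ y, y ∈ S_U C (fun c => ρ₀ c / 2) c → y ≠ c →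
        y ∈ D c ∧ σ (X.ch (j c)) y ≠ 0 ∧ ∃ R', Good (X.h (j c)) (X.ch (j c)).target T
          (X.ch (j c) (ν y)) (σ (X.ch (j c)) y) R' ∧
          ‖σ (X.ch (j c)) y‖ * rad (X.h (j c)) T (X.ch (j c) (ν y)) (σ (X.ch (j c)) y) R' < r₁ ∧
          (o c * Real.log ‖chartAt ℂ c y - chartAt ℂ c c‖ +
            - Real.log (rad (X.h (j c)) T (x c (chartAt ℂ c y)) (g c (chartAt ℂ c y)) (Rr c)) =
            - Real.log (rad (X.h (j c)) T (X.ch (j c) (ν y)) (σ (X.ch (j c)) y) R')) := by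
      intro c hc y hy hne
      have hz : chartAt ℂ c y ∈ ball (chartAt ℂ c c) (ρ₀ c / 2) := hy.2
      have hz' : chartAt ℂ c y ∈ closedBall (chartAt ℂ c c) (ρ₀ c / 2) := ball_subset_closedBall hz
      have hsy : (chartAt ℂ c).symm (chartAt ℂ c y) = y := (chartAt ℂ c).left_inv hy.1
      have hzne : chartAt ℂ c y ≠ chartAt ℂ c c := fun he =>
        hne ((chartAt ℂ c).injOn hy.1 (mem_chart_source ℂ c) he)
      have hσe := ((hloc c _ (hcb c hz')).2.2.2.2 hzne).1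
      rw [hsy] at hσe
      have hg0 := (hloc c _ (hcb c hz')).2.2.2.1
      have hk : (chartAt ℂ c y - chartAt ℂ c c) ^ (o c) ≠ 0 := zpow_ne_zero _ (sub_ne_zero.2 hzne)
      have hxy : x c (chartAt ℂ c y) = X.ch (j c) (ν y) := by rw [hxe, hsy]
      obtain ⟨G, Gr⟩ := hGood c T hTpos (hTlt c hc) _ hz'
      have G' := G.smul (X.semi (j c)) hk
      have hr' := rad_smul (X.semi (j c)) G hk
      have hrp := (rad_eq (X.semi (j c)) G).1
      rw [← hσe, hxy] at G' hr'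
      have hkn : (0 : ℝ) < ‖(chartAt ℂ c y - chartAt ℂ c c) ^ (o c)‖ := norm_pos_iff.2 hk
      refine ⟨?_, ?_, _, G', ?_, ?_⟩
      · rw [hD]
        exact ⟨_, hz', hsy⟩
      · rw [hσe]
        exact smul_ne_zero hk hg0
      · rw [hr']
        have e1 : ‖σ (X.ch (j c)) y‖ = ‖(chartAt ℂ c y - chartAt ℂ c c) ^ (o c)‖ *
            ‖g c (chartAt ℂ c y)‖ := by rw [hσe, norm_smul]
        rw [e1]
        have e2 : ‖(chartAt ℂ c y - chartAt ℂ c c) ^ (o c)‖ * ‖g c (chartAt ℂ c y)‖ *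
            (rad (X.h (j c)) T (X.ch (j c) (ν y)) (g c (chartAt ℂ c y)) (Rr c) /
              ‖(chartAt ℂ c y - chartAt ℂ c c) ^ (o c)‖) =
            ‖g c (chartAt ℂ c y)‖ *
              rad (X.h (j c)) T (X.ch (j c) (ν y)) (g c (chartAt ℂ c y)) (Rr c) := by
          field_simp
        rw [e2, ← hxy]
        exact Gr
      · rw [hr', ← hxy, Real.log_div hrp.ne' hkn.ne', norm_zpow, Real.log_zpow]
        ring
    intro c hc c' hc' y hy hy' hne hne'
    obtain ⟨hyD, hσ0, R₁, G₁, hG₁, e₁⟩ := key c hc y hy hne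
    obtain ⟨hyD', hσ0', R₂, G₂, hG₂, e₂⟩ := key c' hc' y hy' hne'
    have hpos₁ := (rad_eq (X.semi (j c)) G₁).1
    have hpos₂ := (rad_eq (X.semi (j c')) G₂).1
    have hs := hDs c y hyD
    have hs' := hDs c' y hyD'
    have hd1 := hstab (c, c') (ν y) ⟨y, ⟨hyD, hyD'⟩, rfl⟩ _ hσ0 _ hpos₁
      (hG₁.trans_le (hle (c, c') (Finset.mem_product.2 ⟨hc, hc'⟩)))
    have hd2 := hstab (c', c) (ν y) ⟨y, ⟨hyD', hyD⟩, rfl⟩ _ hσ0' _ hpos₂
      (hG₂.trans_le (hle (c', c) (Finset.mem_product.2 ⟨hc', hc⟩)))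
    simp only at hd1 hd2
    rw [← hσ.1 _ (X.hol (j c)) _ (X.hol (j c')) y hs hs'] at hd1
    rw [← hσ.1 _ (X.hol (j c')) _ (X.hol (j c)) y hs' hs] at hd2
    have h3 := log_close (X.semi (j c)) (X.semi (j c')) hε G₁ G₂ hd1 hd2
    simp only
    rw [e₁, e₂, ← neg_add_eq_sub, neg_neg, ← sub_eq_neg_add, abs_sub_comm] at *
    exact h3

end Pool.Agent.Nef6.DM
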